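import Pool.Agent.T9h4.DQ.Fam
import Pool.Agent.T9h4.HQ.Cop

/-!
The cubic and the quartic coefficient along the conic.
-/

set_option autoImplicit false
set_option linter.unusedSectionVars false

open Polynomial
open Pool.Agent.T9h4.HQ (moment N1 V1)

namespace Pool.Agent.T9h4.DQ

universe u v

theorem V1.bil_ne {L : Type u} [Field L] {a Z : Fin 4 → L} {S₀ : Finset (Fin 4)}
    (h : V1 a Z S₀) : bil a (HQ.sq Z) (HQ.sq Z) ≠ 0 := by
  have h1 := h.tot
  have h2 : bil a (HQ.sq Z) (HQ.sq Z) = ∑ i, a i * Z i ^ 4 := by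
    refine Finset.sum_congr rfl fun i _ => ?_
    unfold HQ.sq
    ring
  rwa [h2]

section

variable {L : Type u} [Field L] {a : Fin 4 → L}

/-- the parametrization of the conic -/
noncomputable def zz {v : Fin 4 → L} (p : Par a v) (j : Fin 4) : L[X] :=
  C (p.A j) + C (p.M j) * X + C (p.C j) * X ^ 2

variable {Z : Fin 4 → L}

/-- the direction -/
noncomputable def yy (p : Par a (HQ.sq Z)) (j : Fin 4) : L[X] :=
  C (Z j)⁻¹ * zz p j

/-- the cubic coefficient -/
noncomputable def c3 (p : Par a (HQ.sq Z)) : L[X] := ∑ j, C (a j * Z j) * yy p j ^ 3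

/-- the quartic coefficient -/
noncomputable def c4 (p : Par a (HQ.sq Z)) : L[X] := ∑ j, C (a j) * yy p j ^ 4

theorem aeval_zz {A : Type v} [Field A] [Algebra L A] {v : Fin 4 → L} (p : Par a v) (t : A)
    (j : Fin 4) : aeval t (zz p j) = zval (p.map (algebraMap L A)) t j := by
  unfold zz zval
  simp only [map_add, map_mul, map_pow, aeval_C, aeval_X]
  rfl

variable {S₀ : Finset (Fin 4)}

/-- the values at a common zero -/
theorem values {Ω : Type v} [Field Ω] [Algebra L Ω] (p : Par a (HQ.sq Z)) (h : V1 a Z S₀) (t : Ω) :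
    ∃ ζ : Fin 4 → Ω, (∀ j, aeval t (zz p j) = ζ j * algebraMap L Ω (Z j) ^ 2) ∧
      (∃ j, ζ j ≠ 0) ∧
      ∑ j, algebraMap L Ω (a j * Z j ^ 4) * ζ j ^ 1 = 0 ∧
      ∑ j, algebraMap L Ω (a j * Z j ^ 4) * ζ j ^ 2 = 0 ∧
      ∑ j, algebraMap L Ω (a j * Z j ^ 4) * ζ j ^ 3 = aeval t (c3 p) ∧
      ∑ j, algebraMap L Ω (a j * Z j ^ 4) * ζ j ^ 4 = aeval t (c4 p) := by
  set ι := algebraMap L Ω with hι
  have hZ : ∀ j, ι (Z j) ≠ 0 := fun j => by
    rw [Ne, map_eq_zero]
    exact h.ne j
  set z : Fin 4 → Ω := fun j => aeval t (zz p j) with hz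
  have hy : ∀ j, aeval t (yy p j) = (ι (Z j))⁻¹ * z j := by
    intro j
    rw [yy, map_mul, aeval_C, map_inv₀]
  have hζz : ∀ j, z j = z j / ι (Z j) ^ 2 * ι (Z j) ^ 2 := fun j =>
    (div_mul_cancel₀ _ (pow_ne_zero 2 (hZ j))).symm
  have hz' : ∀ j, z j = zval (p.map ι) t j := fun j => aeval_zz p t j
  have hzne : ∃ j, z j ≠ 0 := by
    simp only [hz']
    exact zval_ne _ _
  refine ⟨fun j => z j / ι (Z j) ^ 2, hζz, ?_, ?_, ?_, ?_, ?_⟩
  · obtain ⟨j, hj⟩ := hzne
    exact ⟨j, div_ne_zero hj (pow_ne_zero 2 (hZ j))⟩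
  · rw [← zval_lin (p.map ι) t]
    refine Finset.sum_congr rfl fun j _ => ?_
    rw [← hz', map_mul, map_pow]
    change _ = ι (a j) * ι (Z j ^ 2) * z j
    rw [map_pow]
    have := hZ j
    field_simp
  · rw [← zval_sq (p.map ι) t]
    refine Finset.sum_congr rfl fun j _ => ?_
    rw [← hz', map_mul, map_pow]
    change _ = ι (a j) * z j ^ 2
    have := hZ j
    field_simp
  · rw [c3, map_sum]
    refine Finset.sum_congr rfl fun j _ => ?_
    rw [map_mul, map_mul, map_pow, map_pow, hy, aeval_C, ← hι, map_mul]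
    have := hZ j
    field_simp
  · rw [c4, map_sum]
    refine Finset.sum_congr rfl fun j _ => ?_
    rw [map_mul, map_mul, map_pow, map_pow, hy, aeval_C, ← hι]
    have := hZ j
    field_simp

/-- a common zero corresponds to the exceptional subset -/
theorem common {Ω : Type v} [Field Ω] [Algebra L Ω] (p : Par a (HQ.sq Z)) (h : V1 a Z S₀) {t : Ω}
    (h3 : aeval t (c3 p) = 0) (h4 : aeval t (c4 p) = 0) :
    ∃ κ : Ω, κ ≠ 0 ∧ ∀ j, aeval t (zz p j) =
      κ * if j ∈ S₀ then algebraMap L Ω (Z j) ^ 2 else 0 := by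
  classical
  obtain ⟨ζ, hζ, ⟨j₀, hj₀⟩, e1, e2, e3, e4⟩ := values p h t
  rw [h3] at e3
  rw [h4] at e4
  have key : ∀ j₁, ζ j₁ ≠ 0 → Finset.univ.filter (fun j => ζ j = ζ j₁) = S₀ := by
    intro j₁ hj₁
    have hcard : (Finset.univ.filter (fun j => ζ j ≠ ζ j₁)).card ≤ 3 := by
      have h1 : Finset.univ.filter (fun j => ζ j ≠ ζ j₁) ⊂ Finset.univ := by
        rw [Finset.ssubset_iff_of_subset (Finset.subset_univ _)]
        exact ⟨j₁, Finset.mem_univ _, by simp⟩
      have h2 := Finset.card_lt_card h1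
      rw [Finset.card_univ, Fintype.card_fin] at h2
      omega
    have hS0 := moment 4 (w := fun j => algebraMap L Ω
      (a j * Z j ^ 4)) (ζ := ζ) (by
      intro l hl1 hl2
      interval_cases l
      · exact e1
      · exact e2
      · exact e3
      · exact e4) hj₁ (T := Finset.univ.filter (fun j => ζ j ≠ ζ j₁)) (fun j h1 _ => by simp [h1])
        (by simp) (by omega)
    refine h.uniq _ ⟨j₁, by simp⟩ ?_
    apply (algebraMap L Ω).injective
    rw [map_zero, ← hS0, map_sum]
  refine ⟨ζ j₀, hj₀, fun j => ?_⟩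
  rw [hζ]
  by_cases hj : j ∈ S₀
  · rw [if_pos hj]
    rw [← key j₀ hj₀] at hj
    rw [(Finset.mem_filter.1 hj).2]
  · rw [if_neg hj, mul_zero]
    have h5 : ζ j = 0 := by
      by_contra hne
      apply hj
      rw [← key j hne]
      simp
    rw [h5, zero_mul]

theorem natDegree_zz {v : Fin 4 → L} (p : Par a v) (j : Fin 4) : (zz p j).natDegree ≤ 2 := by
  unfold zz
  compute_degree

theorem coeff_zz {v : Fin 4 → L} (p : Par a v) (j : Fin 4) : (zz p j).coeff 2 = p.C j := by
  unfold zz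
  simp

theorem coeff_zz0 {v : Fin 4 → L} (p : Par a v) (j : Fin 4) : (zz p j).coeff 0 = p.A j := by
  unfold zz
  simp

theorem coeff_zz1 {v : Fin 4 → L} (p : Par a v) (j : Fin 4) : (zz p j).coeff 1 = p.M j := by
  unfold zz
  simp [coeff_C]

theorem natDegree_yy (p : Par a (HQ.sq Z)) (j : Fin 4) : (yy p j).natDegree ≤ 2 := by
  unfold yy
  exact (natDegree_C_mul_le _ _).trans (natDegree_zz p j)

theorem coeff_yy (p : Par a (HQ.sq Z)) (j : Fin 4) :
    (yy p j).coeff 2 = (Z j)⁻¹ * p.C j := by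
  unfold yy
  rw [coeff_C_mul, coeff_zz]

theorem coeff_c3 (p : Par a (HQ.sq Z)) :
    (c3 p).coeff 6 = ∑ j, a j * Z j * ((Z j)⁻¹ * p.C j) ^ 3 := by
  unfold c3
  rw [finsetSum_coeff]
  refine Finset.sum_congr rfl fun j _ => ?_
  rw [coeff_C_mul]
  congr 1
  have h := coeff_pow_of_natDegree_le (m := 3) (natDegree_yy p j)
  rw [coeff_yy] at h
  exact h

/-- the cubic coefficient does not vanish identically -/
theorem c3_ne (p : Par a (HQ.sq Z)) (h : V1 a Z S₀) : c3 p ≠ 0 := by
  classical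
  intro h0
  obtain ⟨j₂, hj₂⟩ := C_ne p
  by_cases hex : ∃ j₁ ∈ S₀, p.C j₁ ≠ 0
  · obtain ⟨j₁, hj₁S, hj₁⟩ := hex
    have hdeg : (zz p j₁).natDegree = 2 := by
      refine le_antisymm (natDegree_zz p _) (le_natDegree_of_ne_zero ?_)
      rw [coeff_zz]
      exact hj₁
    obtain ⟨t, ht⟩ := IsAlgClosed.exists_aeval_eq_zero (AlgebraicClosure L) (zz p j₁) (by
      rw [degree_eq_natDegree (by
        intro h1
        rw [h1, natDegree_zero] at hdeg
        omega), hdeg]
      norm_num)
    obtain ⟨ζ, hζ, ⟨j₀, hj₀⟩, e1, e2, e3, e4⟩ := values p h t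
    rw [h0, map_zero] at e3
    have hζ1 : ζ j₁ = 0 := by
      have h1 := hζ j₁
      rw [ht] at h1
      refine (mul_eq_zero.1 h1.symm).resolve_right (pow_ne_zero 2 ?_)
      rw [Ne, map_eq_zero]
      exact h.ne j₁
    have hcard : (Finset.univ.filter (fun j => ζ j ≠ ζ j₀ ∧ ζ j ≠ 0)).card + 1 ≤ 3 := by
      have h1 : Finset.univ.filter (fun j => ζ j ≠ ζ j₀ ∧ ζ j ≠ 0) ⊆
          (Finset.univ.erase j₀).erase j₁ := by
        intro j hj
        obtain ⟨_, h2, h3⟩ := Finset.mem_filter.1 hj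
        rw [Finset.mem_erase, Finset.mem_erase]
        refine ⟨?_, ?_, Finset.mem_univ _⟩
        · rintro rfl
          exact h3 hζ1
        · rintro rfl
          exact h2 rfl
      have h2 := Finset.card_le_card h1
      have h3 : j₁ ≠ j₀ := by
        rintro rfl
        exact hj₀ hζ1
      rw [Finset.card_erase_of_mem (by simp [h3]), Finset.card_erase_of_mem (Finset.mem_univ _),
        Finset.card_univ, Fintype.card_fin] at h2
      omega
    have hS0 := moment 3 (w := fun j => algebraMap L (AlgebraicClosure L)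
      (a j * Z j ^ 4)) (ζ := ζ) (by
      intro l hl1 hl2
      interval_cases l
      · exact e1
      · exact e2
      · exact e3) hj₀ (T := Finset.univ.filter (fun j => ζ j ≠ ζ j₀ ∧ ζ j ≠ 0))
        (fun j h1 h2 => by simp [h1, h2]) (fun j hj => (Finset.mem_filter.1 hj).2.1) hcard
    have hS : Finset.univ.filter (fun j => ζ j = ζ j₀) = S₀ := by
      refine h.uniq _ ⟨j₀, by simp⟩ ?_
      apply (algebraMap L (AlgebraicClosure L)).injective
      rw [map_zero, ← hS0, map_sum]
    rw [← hS] at hj₁S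
    have h1 := (Finset.mem_filter.1 hj₁S).2
    rw [hζ1] at h1
    exact hj₀ h1.symm
  · push Not at hex
    -- the point at infinity
    obtain ⟨ζ, hζ⟩ : ∃ ζ : Fin 4 → L, ∀ j, ζ j = p.C j / Z j ^ 2 := ⟨_, fun _ => rfl⟩
    have hζ' : ∀ j, p.C j = ζ j * Z j ^ 2 := fun j => by
      rw [hζ, div_mul_cancel₀ _ (pow_ne_zero 2 (h.ne j))]
    have hj₂' : ζ j₂ ≠ 0 := by
      rw [hζ]
      exact div_ne_zero hj₂ (pow_ne_zero 2 (h.ne j₂))
    have e1 : ∑ j, a j * Z j ^ 4 * ζ j ^ 1 = 0 := by
      rw [← p.vC]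
      refine Finset.sum_congr rfl fun j _ => ?_
      rw [hζ']
      unfold HQ.sq
      ring
    have e2 : ∑ j, a j * Z j ^ 4 * ζ j ^ 2 = 0 := by
      rw [← p.CC]
      refine Finset.sum_congr rfl fun j _ => ?_
      rw [hζ']
      ring
    have e3 : ∑ j, a j * Z j ^ 4 * ζ j ^ 3 = 0 := by
      have h1 : (c3 p).coeff 6 = 0 := by rw [h0, coeff_zero]
      rw [coeff_c3] at h1
      rw [← h1]
      refine Finset.sum_congr rfl fun j _ => ?_
      rw [hζ']
      have := h.ne j
      field_simp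
    have hζ0 : ∀ j ∈ S₀, ζ j = 0 := fun j hj => by rw [hζ, hex j hj, zero_div]
    have hS : ∀ T : Finset (Fin 4), (∀ j, ζ j ≠ ζ j₂ → ζ j ≠ 0 → j ∈ T) →
        (∀ j ∈ T, ζ j ≠ ζ j₂) → T.card + 1 ≤ 3 → False := by
      intro T hT hT' hcard
      have hS0 := moment 3 (w := fun j => a j * Z j ^ 4) (ζ := ζ) (by
        intro l hl1 hl2
        interval_cases l
        · exact e1
        · exact e2
        · exact e3) hj₂' hT hT' hcard
      have h1 := h.uniq _ ⟨j₂, by simp⟩ hS0
      have h2 : j₂ ∈ S₀ := by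
        rw [← h1]
        simp
      exact hj₂' (hζ0 j₂ h2)
    by_cases hne : S₀.Nonempty
    · obtain ⟨j₁, hj₁⟩ := hne
      have hζ1 := hζ0 j₁ hj₁
      refine hS (Finset.univ.filter (fun j => ζ j ≠ ζ j₂ ∧ ζ j ≠ 0))
        (fun j h1 h2 => by simp [h1, h2]) (fun j hj => (Finset.mem_filter.1 hj).2.1) ?_
      have h1 : Finset.univ.filter (fun j => ζ j ≠ ζ j₂ ∧ ζ j ≠ 0) ⊆
          (Finset.univ.erase j₂).erase j₁ := by
        intro j hj
        obtain ⟨_, h2, h3⟩ := Finset.mem_filter.1 hj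
        rw [Finset.mem_erase, Finset.mem_erase]
        refine ⟨?_, ?_, Finset.mem_univ _⟩
        · rintro rfl
          exact h3 hζ1
        · rintro rfl
          exact h2 rfl
      have h2 := Finset.card_le_card h1
      have h3 : j₁ ≠ j₂ := by
        rintro rfl
        exact hj₂' hζ1
      rw [Finset.card_erase_of_mem (by simp [h3]), Finset.card_erase_of_mem (Finset.mem_univ _),
        Finset.card_univ, Fintype.card_fin] at h2
      omega
    · -- then no partial sum vanishes; apply the result to another subset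
      rw [Finset.not_nonempty_iff_eq_empty] at hne
      have hN : ∀ S : Finset (Fin 4), S.Nonempty → ∑ i ∈ S, a i * Z i ^ 4 ≠ 0 := by
        intro S hS1 hS2
        have := h.uniq S hS1 hS2
        rw [hne] at this
        exact hS1.ne_empty this
      have hdeg : (zz p j₂).natDegree = 2 := by
        refine le_antisymm (natDegree_zz p _) (le_natDegree_of_ne_zero ?_)
        rw [coeff_zz]
        exact hj₂
      obtain ⟨t, ht⟩ := IsAlgClosed.exists_aeval_eq_zero (AlgebraicClosure L) (zz p j₂) (by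
        rw [degree_eq_natDegree (by
          intro h1
          rw [h1, natDegree_zero] at hdeg
          omega), hdeg]
        norm_num)
      obtain ⟨ξ, hξ, ⟨j₀, hj₀⟩, f1, f2, f3, f4⟩ := values p h t
      rw [h0, map_zero] at f3
      have hξ1 : ξ j₂ = 0 := by
        have h1 := hξ j₂
        rw [ht] at h1
        refine (mul_eq_zero.1 h1.symm).resolve_right (pow_ne_zero 2 ?_)
        rw [Ne, map_eq_zero]
        exact h.ne j₂
      have hcard : (Finset.univ.filter (fun j => ξ j ≠ ξ j₀ ∧ ξ j ≠ 0)).card + 1 ≤ 3 := by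
        have h1 : Finset.univ.filter (fun j => ξ j ≠ ξ j₀ ∧ ξ j ≠ 0) ⊆
            (Finset.univ.erase j₀).erase j₂ := by
          intro j hj
          obtain ⟨_, h2, h3⟩ := Finset.mem_filter.1 hj
          rw [Finset.mem_erase, Finset.mem_erase]
          refine ⟨?_, ?_, Finset.mem_univ _⟩
          · rintro rfl
            exact h3 hξ1
          · rintro rfl
            exact h2 rfl
        have h2 := Finset.card_le_card h1
        have h3 : j₂ ≠ j₀ := by
          rintro rfl
          exact hj₀ hξ1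
        rw [Finset.card_erase_of_mem (by simp [h3]), Finset.card_erase_of_mem (Finset.mem_univ _),
          Finset.card_univ, Fintype.card_fin] at h2
        omega
      have hS0 := moment 3 (w := fun j => algebraMap L (AlgebraicClosure L)
        (a j * Z j ^ 4)) (ζ := ξ) (by
        intro l hl1 hl2
        interval_cases l
        · exact f1
        · exact f2
        · exact f3) hj₀ (T := Finset.univ.filter (fun j => ξ j ≠ ξ j₀ ∧ ξ j ≠ 0))
          (fun j h1 h2 => by simp [h1, h2]) (fun j hj => (Finset.mem_filter.1 hj).2.1) hcard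
      refine hN (Finset.univ.filter (fun j => ξ j = ξ j₀)) ⟨j₀, by simp⟩ ?_
      apply (algebraMap L (AlgebraicClosure L)).injective
      rw [map_zero, ← hS0, map_sum]

end

end Pool.Agent.T9h4.DQ
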