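import Pool.Agent.T9h4.DQ.Max
import Pool.Agent.T9h4.HQ.Crit

/-!
Diagonal quartic threefolds are dominated by rational varieties over extensions of the base field.
-/

set_option autoImplicit false
set_option linter.unusedSectionVars false

open IntermediateField
open Pool.Agent.R867.Mov (PT PT_rt)
open Pool.Agent.T9h4.HQ (N1 V1 make_v1 embed indep₀)

namespace Pool.Agent.T9h4.DQ

universe u v

theorem PT_self (F : Type u) [Field F] : PT F F := by
  refine ⟨0, Fin.elim0, ?_, ?_⟩
  · exact algebraicIndependent_empty_type_iff.2 (algebraMap F F).injective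
  · rw [Set.range_eq_empty, adjoin_empty]
    exact Subsingleton.elim _ _

section

variable {E : Type u} [Field E] [CharZero E] {K : Type u} [Field K] [Algebra E K] {x : Fin 4 → K}
  {a : Fin 4 → E} {c : E}

/-- embeddings over an extension of the base field -/
theorem embed_over {F : Type u} [Field F] [Algebra E F] (ha : ∀ i, a i ≠ 0) (hc : c ≠ 0)
    {s t : Fin 4 → F} {s4 t4 : F}
    (hPl : Pl (algebraMap E F ∘ a) (algebraMap E F c) s t s4 t4) {Z : Fin 4 → F}
    (hZ : ∀ i, Z i ≠ 0) (hZc : ∑ j, algebraMap E F (a j) * Z j ^ 4 = algebraMap E F c)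
    (hgen : adjoin E (Set.range x) = ⊤)
    (hx : ∑ j, algebraMap E K (a j) * x j ^ 4 = algebraMap E K c)
    (hxi : AlgebraicIndependent E (x ∘ Fin.castSucc)) :
    ∃ (L : Type u) (_ : Field L) (_ : Algebra F L) (σ : K →+* L), PT F L ∧
      ∀ e : E, σ (algebraMap E K e) = algebraMap F L (algebraMap E F e) := by
  have hch : CharZero F := charZero_of_injective_algebraMap (algebraMap E F).injective
  have ha' : ∀ i, (algebraMap E F ∘ a) i ≠ 0 := fun i => (map_ne_zero _).2 (ha i)
  have hc' : algebraMap E F c ≠ 0 := (map_ne_zero _).2 hc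
  obtain ⟨L', _, _, Z', S₀, hPT', hV, hZ'⟩ := make_v1 (a := algebraMap E F ∘ a)
    (c := algebraMap E F c) (PT_self F) ha' hc' (Z := Z) hZ hZc
  obtain ⟨L, _, _, Y, hPT, hY, hYi⟩ := exists_generic ha' hPl hPT' hV hZ'
  let _ : Algebra E L := ((algebraMap F L).comp (algebraMap E F)).toAlgebra
  have : IsScalarTower E F L := IsScalarTower.of_algebraMap_eq' rfl
  have hYi' : AlgebraicIndependent E (Y ∘ Fin.castSucc) :=
    hYi.restrictScalars (algebraMap E F).injective
  obtain ⟨σ⟩ := embed (K := K) (L := L) ha hx hY hxi hYi' hgen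
  exact ⟨L, inferInstance, inferInstance, σ.toRingHom, hPT, σ.commutes⟩

end

end Pool.Agent.T9h4.DQ
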