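import Mathlib

/-!
Parametrizations of the conic of asymptotic directions of a diagonal quartic.
-/

set_option autoImplicit false
set_option linter.unusedSectionVars false

open Polynomial

namespace Pool.Agent.T9h4.DQ

universe u v

/-- the diagonal bilinear form -/
def bil {L : Type u} [Field L] (a x y : Fin 4 → L) : L := ∑ i, a i * x i * y i

theorem bil_comm {L : Type u} [Field L] (a x y : Fin 4 → L) : bil a x y = bil a y x := by
  unfold bil
  refine Finset.sum_congr rfl fun i _ => ?_
  ring

theorem bil_map {L : Type u} {A : Type v} [Field L] [Field A] (φ : L →+* A) (a x y : Fin 4 → L) :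
    bil (φ ∘ a) (φ ∘ x) (φ ∘ y) = φ (bil a x y) := by
  unfold bil
  rw [map_sum]
  refine Finset.sum_congr rfl fun i _ => ?_
  simp only [Function.comp_apply, map_mul]

/-- a parametrization of the conic `B(z,z) = 0`, `B(v,z) = 0` -/
structure Par {L : Type u} [Field L] (a v : Fin 4 → L) where
  A : Fin 4 → L
  M : Fin 4 → L
  C : Fin 4 → L
  ρ : L
  ρne : ρ ≠ 0
  vv : bil a v v ≠ 0
  AA : bil a A A = 0
  AM : bil a A M = 0
  AC : bil a A C = ρ
  MM : bil a M M = -2 * ρ
  MC : bil a M C = 0
  CC : bil a C C = 0
  vA : bil a v A = 0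
  vM : bil a v M = 0
  vC : bil a v C = 0

/-- the image under a homomorphism -/
def Par.map {L : Type u} {A : Type v} [Field L] [Field A] {a v : Fin 4 → L} (p : Par a v)
    (φ : L →+* A) : Par (φ ∘ a) (φ ∘ v) where
  A := φ ∘ p.A
  M := φ ∘ p.M
  C := φ ∘ p.C
  ρ := φ p.ρ
  ρne := (map_ne_zero φ).2 p.ρne
  vv := by
    rw [bil_map, Ne, map_eq_zero]
    exact p.vv
  AA := by rw [bil_map, p.AA, map_zero]
  AM := by rw [bil_map, p.AM, map_zero]
  AC := by rw [bil_map, p.AC]
  MM := by rw [bil_map, p.MM, map_mul, map_neg, map_ofNat]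
  MC := by rw [bil_map, p.MC, map_zero]
  CC := by rw [bil_map, p.CC, map_zero]
  vA := by rw [bil_map, p.vA, map_zero]
  vM := by rw [bil_map, p.vM, map_zero]
  vC := by rw [bil_map, p.vC, map_zero]

section

variable {L : Type u} [Field L] {a v : Fin 4 → L} (p : Par a v)

/-- the parametrization, numerical form -/
def zval (t : L) (j : Fin 4) : L := p.A j + p.M j * t + p.C j * t ^ 2

theorem bil_zval (w : Fin 4 → L) (t : L) : bil a w (zval p t) =
    bil a w p.A + bil a w p.M * t + bil a w p.C * t ^ 2 := by
  unfold zval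
  simp only [bil, Fin.sum_univ_four]
  ring

theorem zval_C (t : L) : bil a p.C (zval p t) = p.ρ := by
  rw [bil_zval, bil_comm a p.C p.A, bil_comm a p.C p.M, p.AC, p.MC, p.CC]
  ring

theorem zval_M (t : L) : bil a p.M (zval p t) = -2 * p.ρ * t := by
  rw [bil_zval, bil_comm a p.M p.A, p.AM, p.MM, p.MC]
  ring

theorem zval_A (t : L) : bil a p.A (zval p t) = p.ρ * t ^ 2 := by
  rw [bil_zval, p.AA, p.AM, p.AC]
  ring

theorem zval_zval (t : L) : bil a (zval p t) (zval p t) = 0 := by
  rw [bil_zval, bil_comm a _ p.A, bil_comm a _ p.M, bil_comm a _ p.C, zval_A, zval_M, zval_C]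
  ring

theorem zval_sq (t : L) : ∑ j, a j * zval p t j ^ 2 = 0 := by
  rw [← zval_zval p t]
  refine Finset.sum_congr rfl fun i _ => ?_
  ring

theorem zval_lin' (t : L) : bil a v (zval p t) = 0 := by
  rw [bil_zval, p.vA, p.vM, p.vC]
  ring

theorem zval_lin (t : L) : ∑ j, a j * v j * zval p t j = 0 := zval_lin' p t

theorem zval_ne (t : L) : ∃ j, zval p t j ≠ 0 := by
  by_contra hcon
  push Not at hcon
  apply p.ρne
  rw [← zval_C p t]
  unfold bil
  simp only [hcon, mul_zero, Finset.sum_const_zero]

theorem C_ne : ∃ j, p.C j ≠ 0 := by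
  by_contra hcon
  push Not at hcon
  apply p.ρne
  rw [← p.AC]
  unfold bil
  simp only [hcon, mul_zero, Finset.sum_const_zero]

/-- the parametrization is injective -/
theorem zval_inj (h2 : (2 : L) ≠ 0) {u : Fin 4 → L} {t₁ t₂ κ₁ κ₂ : L}
    (e₁ : ∀ j, zval p t₁ j = κ₁ * u j) (e₂ : ∀ j, zval p t₂ j = κ₂ * u j) : t₁ = t₂ := by
  have key : ∀ (w : Fin 4 → L) (t κ : L), (∀ j, zval p t j = κ * u j) →
      bil a w (zval p t) = κ * bil a w u := by
    intro w t κ h
    unfold bil
    rw [Finset.mul_sum]
    refine Finset.sum_congr rfl fun j _ => ?_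
    rw [h]
    ring
  have a1 := key p.C t₁ κ₁ e₁
  have a2 := key p.C t₂ κ₂ e₂
  have b1 := key p.M t₁ κ₁ e₁
  have b2 := key p.M t₂ κ₂ e₂
  rw [zval_C] at a1 a2
  rw [zval_M] at b1 b2
  have hU : bil a p.C u ≠ 0 := by
    intro h0
    rw [h0, mul_zero] at a1
    exact p.ρne a1
  have hκ : κ₁ = κ₂ := by
    apply mul_right_cancel₀ hU
    rw [← a1, ← a2]
  have h3 : 2 * p.ρ * (t₁ - t₂) = 0 := by
    rw [hκ] at b1
    linear_combination b2 - b1
  exact sub_eq_zero.1 ((mul_eq_zero.1 h3).resolve_left (mul_ne_zero h2 p.ρne))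

/-- completeness -/
theorem complete_aux (h2 : (2 : L) ≠ 0) (i j : Fin 4) :
    a i * (v i * v j / bil a v v + (p.C i * p.A j + p.A i * p.C j) / p.ρ -
      p.M i * p.M j / (2 * p.ρ)) = if i = j then 1 else 0 := by
  have hρ := p.ρne
  have hv := p.vv
  obtain ⟨n, hn⟩ : ∃ n, n = bil a v v := ⟨_, rfl⟩
  rw [← hn] at hv ⊢
  let U : Matrix (Fin 4) (Fin 4) L := Matrix.of ![v, p.A, p.M, p.C]
  let W : Matrix (Fin 4) (Fin 4) L := Matrix.of fun i k =>
    a i * (![fun i => v i / n, fun i => p.C i / p.ρ, fun i => -p.M i / (2 * p.ρ),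
      fun i => p.A i / p.ρ] k) i
  have h1 : U * W = 1 := by
    have e1 := p.AA
    have e2 := p.AM
    have e3 := p.AC
    have e4 := p.MM
    have e5 := p.MC
    have e6 := p.CC
    have e7 := p.vA
    have e8 := p.vM
    have e9 := p.vC
    simp only [bil, Fin.sum_univ_four] at e1 e2 e3 e4 e5 e6 e7 e8 e9 hn
    ext k l
    rw [Matrix.mul_apply, Fin.sum_univ_four]
    fin_cases k <;> fin_cases l <;>
      simp only [U, W, Matrix.of_apply, Matrix.cons_val_zero, Matrix.cons_val_one,
        Matrix.cons_val, Fin.zero_eta, Fin.mk_one, Fin.reduceFinMk, Matrix.one_apply_eq, ne_eq,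
        Fin.reduceEq, not_false_eq_true, Matrix.one_apply_ne, zero_ne_one, one_ne_zero] <;>
      field_simp
    · linear_combination -hn
    · linear_combination e9
    · linear_combination -e8
    · linear_combination e7
    · linear_combination e7
    · linear_combination e3
    · linear_combination -e2
    · linear_combination e1
    · linear_combination e8
    · linear_combination e5
    · linear_combination -e4
    · linear_combination e2
    · linear_combination e9
    · linear_combination e6
    · linear_combination -e5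
    · linear_combination e3
  have h2 : W * U = 1 := mul_eq_one_comm.1 h1
  have h3 := congrFun (congrFun h2 i) j
  rw [Matrix.mul_apply, Fin.sum_univ_four, Matrix.one_apply] at h3
  simp only [U, W, Matrix.of_apply, Matrix.cons_val_zero, Matrix.cons_val_one,
        Matrix.cons_val] at h3
  rw [← h3]
  field_simp
  ring

theorem complete (h2 : (2 : L) ≠ 0) (w : Fin 4 → L) (j : Fin 4) :
    w j = bil a w v * v j / bil a v v + (bil a w p.C * p.A j + bil a w p.A * p.C j) / p.ρ -
      bil a w p.M * p.M j / (2 * p.ρ) := by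
  have h1 : w j = ∑ i, w i * (if i = j then 1 else 0) := by
    simp
  rw [h1]
  simp only [← complete_aux p h2]
  have e1 : bil a w v * v j / bil a v v = ∑ i, a i * w i * v i * v j / bil a v v := by
    rw [← Finset.sum_div]
    congr 1
    unfold bil
    rw [Finset.sum_mul]
  have e2 : (bil a w p.C * p.A j + bil a w p.A * p.C j) / p.ρ =
      ∑ i, (a i * w i * p.C i * p.A j + a i * w i * p.A i * p.C j) / p.ρ := by
    rw [← Finset.sum_div]
    congr 1
    unfold bil
    rw [Finset.sum_mul, Finset.sum_mul, Finset.sum_add_distrib]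
  have e3 : bil a w p.M * p.M j / (2 * p.ρ) = ∑ i, a i * w i * p.M i * p.M j / (2 * p.ρ) := by
    rw [← Finset.sum_div]
    congr 1
    unfold bil
    rw [Finset.sum_mul]
  rw [e1, e2, e3, ← Finset.sum_add_distrib, ← Finset.sum_sub_distrib]
  refine Finset.sum_congr rfl fun i _ => ?_
  ring

/-- a change of the parameter -/
def Par.move (t : L) : Par a v where
  A := p.C
  M := fun j => p.M j + 2 * t * p.C j
  C := zval p t
  ρ := p.ρ
  ρne := p.ρne
  vv := p.vv
  AA := p.CC
  AM := by
    have e1 := p.MC
    have e2 := p.CC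
    simp only [bil, Fin.sum_univ_four] at e1 e2 ⊢
    linear_combination e1 + 2 * t * e2
  AC := zval_C p t
  MM := by
    have e1 := p.MM
    have e2 := p.MC
    have e3 := p.CC
    simp only [bil, Fin.sum_univ_four] at e1 e2 e3 ⊢
    linear_combination e1 + 4 * t * e2 + 4 * t ^ 2 * e3
  MC := by
    have h1 : bil a (fun j => p.M j + 2 * t * p.C j) (zval p t) =
        bil a p.M (zval p t) + 2 * t * bil a p.C (zval p t) := by
      simp only [bil, Fin.sum_univ_four]
      ring
    rw [h1, zval_M, zval_C]
    ring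
  CC := zval_zval p t
  vA := p.vC
  vM := by
    have e1 := p.vM
    have e2 := p.vC
    simp only [bil, Fin.sum_univ_four] at e1 e2 ⊢
    linear_combination e1 + 2 * t * e2
  vC := zval_lin' p t

/-- a parametrization from an isotropic vector -/
theorem exists_par (h2 : (2 : L) ≠ 0) (ha : ∀ i, a i ≠ 0) (hv : bil a v v ≠ 0) {w : Fin 4 → L}
    (hw0 : ∃ i, w i ≠ 0) (hww : bil a w w = 0) (hvw : bil a v w = 0) : Nonempty (Par a v) := by
  classical
  have hadd : ∀ (x y z : Fin 4 → L) (s : L), bil a (fun i => x i + s * y i) z =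
      bil a x z + s * bil a y z := by
    intro x y z s
    simp only [bil, Fin.sum_univ_four]
    ring
  have hsmul : ∀ (x z : Fin 4 → L) (s : L), bil a (fun i => s * x i) z = s * bil a x z := by
    intro x z s
    simp only [bil, Fin.sum_univ_four]
    ring
  have hsmul' : ∀ (x z : Fin 4 → L) (s : L), bil a x (fun i => s * z i) = s * bil a x z := by
    intro x z s
    simp only [bil, Fin.sum_univ_four]
    ring
  have haddr : ∀ (x y z : Fin 4 → L) (s : L), bil a z (fun i => x i + s * y i) =
      bil a z x + s * bil a z y := by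
    intro x y z s
    simp only [bil, Fin.sum_univ_four]
    ring
  obtain ⟨i, hi⟩ := hw0
  obtain ⟨g, hgw, hgv⟩ : ∃ g : Fin 4 → L, bil a g w ≠ 0 ∧ bil a g v = 0 := by
    obtain ⟨e, he⟩ : ∃ e : Fin 4 → L, ∀ x, bil a e x = a i * x i := by
      refine ⟨fun j => if j = i then 1 else 0, fun x => ?_⟩
      unfold bil
      rw [Finset.sum_eq_single i]
      · simp
      · intro j _ hj
        simp [hj]
      · intro h
        exact absurd (Finset.mem_univ i) h
    refine ⟨fun j => e j + (-(bil a e v) / bil a v v) * v j, ?_, ?_⟩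
    · rw [hadd, hvw, he]
      simp [ha i, hi]
    · rw [hadd]
      field_simp
      ring
  obtain ⟨w', hw'w, hw'v, hw'w'⟩ : ∃ w' : Fin 4 → L, bil a w' w = 1 ∧ bil a w' v = 0 ∧
      bil a w' w' = 0 := by
    obtain ⟨g', hg'⟩ : ∃ g' : Fin 4 → L, g' = fun j => g j + (-(bil a g g) / (2 * bil a g w)) *
      w j := ⟨_, rfl⟩
    have k1 : bil a g' w = bil a g w := by
      rw [hg', hadd, hww]
      ring
    have k2 : bil a g' v = 0 := by
      rw [hg', hadd, hgv, bil_comm a w v, hvw]
      ring
    have k3 : bil a g' g' = 0 := by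
      rw [hg', hadd, haddr, haddr, hww, bil_comm a w g]
      field_simp
      ring
    refine ⟨fun j => (bil a g w)⁻¹ * g' j, ?_, ?_, ?_⟩
    · rw [hsmul, k1, inv_mul_cancel₀ hgw]
    · rw [hsmul, k2, mul_zero]
    · rw [hsmul, hsmul', k3, mul_zero, mul_zero]
  -- the third vector
  obtain ⟨n, hnv, hnw, hnw', hnn⟩ : ∃ n : Fin 4 → L, bil a n v = 0 ∧ bil a n w = 0 ∧
      bil a n w' = 0 ∧ bil a n n ≠ 0 := by
    obtain ⟨e, he⟩ : ∃ e : Fin 4 → Fin 4 → L, ∀ j x, bil a (e j) x = a j * x j := by
      refine ⟨fun j l => if l = j then 1 else 0, fun j x => ?_⟩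
      unfold bil
      rw [Finset.sum_eq_single j]
      · simp
      · intro l _ hl
        simp [hl]
      · intro h
        exact absurd (Finset.mem_univ j) h
    obtain ⟨m, hm⟩ : ∃ m : Fin 4 → Fin 4 → L, ∀ j, m j = fun l =>
        e j l + 1 * ((-(a j * v j) / bil a v v) * v l + 1 * ((-(a j * w' j)) * w l +
          1 * ((-(a j * w j)) * w' l))) := ⟨_, fun _ => rfl⟩
    have hmx : ∀ j x, bil a (m j) x = a j * x j - (a j * v j) / bil a v v * bil a v x -
        a j * w' j * bil a w x - a j * w j * bil a w' x := by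
      intro j x
      rw [hm, hadd, he, hadd, hsmul, hadd, hsmul, hsmul]
      ring
    have m1 : ∀ j, bil a (m j) v = 0 := by
      intro j
      rw [hmx, bil_comm a w v, hvw, hw'v]
      field_simp
      ring
    have m2 : ∀ j, bil a (m j) w = 0 := by
      intro j
      rw [hmx, hvw, hww, hw'w]
      ring
    have m3 : ∀ j, bil a (m j) w' = 0 := by
      intro j
      rw [hmx, bil_comm a v w', hw'v, bil_comm a w w', hw'w, hw'w']
      ring
    have m4 : ∀ j, bil a (m j) (m j) = a j * m j j := by
      intro j
      rw [hmx, bil_comm a v (m j), bil_comm a w (m j), bil_comm a w' (m j), m1 j, m2 j, m3 j]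
      ring
    have m5 : ∑ j, m j j = 1 := by
      have k1 : ∀ j, m j j = e j j - a j * v j * v j / bil a v v - 2 * (a j * w' j * w j) := by
        intro j
        rw [hm]
        ring
      have k2 : ∀ j, e j j = 1 := by
        intro j
        have := he j (e j)
        have k3 := he j (fun l => if l = j then 1 else 0)
        have k4 : bil a (e j) (fun l => if l = j then 1 else 0) = a j * e j j := by
          unfold bil
          rw [Finset.sum_eq_single j]
          · simp
          · intro l _ hl
            simp [hl]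
          · intro h
            exact absurd (Finset.mem_univ j) h
        rw [k4] at k3
        simp only [if_true, mul_one] at k3
        have k5 : a j * (e j j - 1) = 0 := by linear_combination k3
        exact sub_eq_zero.1 ((mul_eq_zero.1 k5).resolve_left (ha j))
      simp only [k1, k2]
      rw [Finset.sum_sub_distrib, Finset.sum_sub_distrib, ← Finset.sum_div, ← Finset.mul_sum]
      have k6 : ∑ j, a j * v j * v j = bil a v v := rfl
      have k7 : ∑ j, a j * w' j * w j = bil a w' w := rfl
      rw [k6, k7, hw'w, div_self hv]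
      simp only [Finset.sum_const, Finset.card_univ, Fintype.card_fin, nsmul_eq_mul]
      norm_num
    obtain ⟨j, hj⟩ : ∃ j, m j j ≠ 0 := by
      by_contra hcon
      push Not at hcon
      simp only [hcon, Finset.sum_const_zero] at m5
      exact zero_ne_one m5
    exact ⟨m j, m1 j, m2 j, m3 j, by rw [m4]; exact mul_ne_zero (ha j) hj⟩
  exact ⟨{ A := w', M := n, C := fun j => (-(bil a n n) / 2) * w j, ρ := -(bil a n n) / 2,
           ρne := div_ne_zero (neg_ne_zero.2 hnn) h2
           vv := hv
           AA := hw'w'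
           AM := by rw [bil_comm, hnw']
           AC := by rw [hsmul', hw'w, mul_one]
           MM := by
             field_simp
           MC := by rw [hsmul', hnw, mul_zero]
           CC := by rw [hsmul, hsmul', hww, mul_zero, mul_zero]
           vA := by rw [bil_comm, hw'v]
           vM := by rw [bil_comm, hnv]
           vC := by rw [hsmul', hvw, mul_zero] }⟩

/-- an isotropic vector from a totally isotropic plane of the quinary form -/
theorem exists_iso {c : L} (hv : bil a v v = c) {s t : Fin 4 → L} {s4 t4 : L}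
    (hss : bil a s s = c * s4 ^ 2) (hst : bil a s t = c * s4 * t4) (htt : bil a t t = c * t4 ^ 2)
    (hind : ∀ l m : L, (∀ i, l * s i + m * t i = 0) → l * s4 + m * t4 = 0 → l = 0 ∧ m = 0) :
    ∃ w : Fin 4 → L, (∃ i, w i ≠ 0) ∧ bil a w w = 0 ∧ bil a v w = 0 := by
  obtain ⟨α, hα⟩ : ∃ α, α = bil a v s - c * s4 := ⟨_, rfl⟩
  obtain ⟨β, hβ⟩ : ∃ β, β = bil a v t - c * t4 := ⟨_, rfl⟩
  -- vectors of the plane orthogonal to the point
  have key : ∀ l m : L, l * α + m * β = 0 →
      bil a (fun i => l * s i + m * t i - (l * s4 + m * t4) * v i)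
        (fun i => l * s i + m * t i - (l * s4 + m * t4) * v i) = 0 ∧
      bil a v (fun i => l * s i + m * t i - (l * s4 + m * t4) * v i) = 0 := by
    intro l m hlm
    have k1 : bil a v (fun i => l * s i + m * t i - (l * s4 + m * t4) * v i) =
        l * bil a v s + m * bil a v t - (l * s4 + m * t4) * bil a v v := by
      simp only [bil, Fin.sum_univ_four]
      ring
    have k2 : bil a v (fun i => l * s i + m * t i - (l * s4 + m * t4) * v i) = 0 := by
      rw [k1, hv]
      linear_combination hlm - l * hα - m * hβ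
    have k3 : bil a (fun i => l * s i + m * t i - (l * s4 + m * t4) * v i)
        (fun i => l * s i + m * t i - (l * s4 + m * t4) * v i) =
        l ^ 2 * bil a s s + 2 * l * m * bil a s t + m ^ 2 * bil a t t -
          2 * (l * s4 + m * t4) * (l * bil a v s + m * bil a v t) +
          (l * s4 + m * t4) ^ 2 * bil a v v := by
      simp only [bil, Fin.sum_univ_four]
      ring
    refine ⟨?_, k2⟩
    rw [k3, hss, hst, htt, hv]
    linear_combination (-2 * (l * s4 + m * t4)) * (hlm - l * hα - m * hβ)
  by_cases h0 : α = 0 ∧ β = 0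
  · obtain ⟨hα0, hβ0⟩ := h0
    by_cases h1 : ∃ i, s i - s4 * v i ≠ 0
    · obtain ⟨k1, k2⟩ := key 1 0 (by rw [hα0]; ring)
      have e : (fun i => 1 * s i + 0 * t i - (1 * s4 + 0 * t4) * v i) =
          fun i => s i - s4 * v i := by
        funext i
        ring
      rw [e] at k1 k2
      exact ⟨_, h1, k1, k2⟩
    · by_cases h2 : ∃ i, t i - t4 * v i ≠ 0
      · obtain ⟨k1, k2⟩ := key 0 1 (by rw [hβ0]; ring)
        have e : (fun i => 0 * s i + 1 * t i - (0 * s4 + 1 * t4) * v i) =
            fun i => t i - t4 * v i := by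
          funext i
          ring
        rw [e] at k1 k2
        exact ⟨_, h2, k1, k2⟩
      · exfalso
        push Not at h1 h2
        obtain ⟨k1, k2⟩ := hind t4 (-s4) (fun i => by linear_combination t4 * h1 i - s4 * h2 i)
          (by ring)
        have k3 : s4 = 0 := neg_eq_zero.1 k2
        obtain ⟨k4, _⟩ := hind 1 0 (fun i => by
          have := h1 i
          rw [k3] at this
          linear_combination this) (by rw [k3]; ring)
        exact one_ne_zero k4
  · obtain ⟨k1, k2⟩ := key β (-α) (by ring)
    refine ⟨_, ?_, k1, k2⟩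
    by_contra hcon
    push Not at hcon
    obtain ⟨μ, hμ⟩ : ∃ μ, μ = β * s4 + -α * t4 := ⟨_, rfl⟩
    rw [← hμ] at hcon
    have k3 : μ * α = 0 := by
      have e1 : bil a (fun i => β * s i + -α * t i) s = μ * bil a v s := by
        have e2 : (fun i => β * s i + -α * t i) = fun i => μ * v i := by
          funext i
          exact sub_eq_zero.1 (hcon i)
        rw [e2]
        simp only [bil, Fin.sum_univ_four]
        ring
      have e3 : bil a (fun i => β * s i + -α * t i) s = β * bil a s s - α * bil a s t := by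
        simp only [bil, Fin.sum_univ_four]
        ring
      rw [e3, hss, hst] at e1
      rw [hα]
      linear_combination -e1 - c * s4 * hμ
    have k4 : μ * β = 0 := by
      have e1 : bil a (fun i => β * s i + -α * t i) t = μ * bil a v t := by
        have e2 : (fun i => β * s i + -α * t i) = fun i => μ * v i := by
          funext i
          exact sub_eq_zero.1 (hcon i)
        rw [e2]
        simp only [bil, Fin.sum_univ_four]
        ring
      have e3 : bil a (fun i => β * s i + -α * t i) t = β * bil a s t - α * bil a t t := by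
        simp only [bil, Fin.sum_univ_four]
        ring
      rw [e3, hst, htt] at e1
      rw [hβ]
      linear_combination -e1 - c * t4 * hμ
    have k5 : μ = 0 := by
      by_contra hne
      exact h0 ⟨(mul_eq_zero.1 k3).resolve_left hne, (mul_eq_zero.1 k4).resolve_left hne⟩
    obtain ⟨k6, k7⟩ := hind β (-α) (fun i => by
      have := hcon i
      rw [k5] at this
      linear_combination this) (by rw [← hμ, k5])
    exact h0 ⟨neg_eq_zero.1 k7, k6⟩

end

end Pool.Agent.T9h4.DQ
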