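import Pool.Agent.T9h4.DQ.Cop
import Pool.Agent.T9h4.HQ.Gcd

/-!
The common factor of the cubic and the quartic coefficient.
-/

set_option autoImplicit false
set_option linter.unusedSectionVars false
set_option linter.unusedSimpArgs false

open Polynomial
open Pool.Agent.T9h4.HQ (N1 V1 deriv2_of_dvd)

namespace Pool.Agent.T9h4.DQ

universe u v

section

variable {L : Type u} [Field L] {a Z : Fin 4 → L} {S₀ : Finset (Fin 4)} (p : Par a (HQ.sq Z))

theorem deriv2_yy (j : Fin 4) : derivative (derivative (yy p j)) =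
    C (2 * (Z j)⁻¹ * p.C j) := by
  have h2 : (C (2 : L) : L[X]) = 2 := map_ofNat C 2
  unfold yy zz
  have h3 : (X : L[X]) ^ 2 = X * X := by ring
  rw [h3]
  simp only [derivative_mul, derivative_X, derivative_C, derivative_add, derivative_one,
    derivative_zero, map_mul, h2, mul_one, one_mul, zero_mul, mul_zero, zero_add, add_zero]
  ring

theorem deriv2_c3 : derivative (derivative (c3 p)) =
    ∑ j, C (a j * Z j) * (6 * yy p j * derivative (yy p j) ^ 2 +
      3 * yy p j ^ 2 * C (2 * (Z j)⁻¹ * p.C j)) := by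
  unfold c3
  rw [derivative_sum, derivative_sum]
  refine Finset.sum_congr rfl fun j _ => ?_
  rw [← deriv2_yy]
  generalize yy p j = q
  rw [derivative_C_mul, derivative_C_mul]
  congr 1
  have h3 : q ^ 3 = q * (q * q) := by ring
  rw [h3]
  simp only [derivative_mul, derivative_add]
  ring

theorem deriv2_c4 : derivative (derivative (c4 p)) =
    ∑ j, C (a j) * (12 * yy p j ^ 2 * derivative (yy p j) ^ 2 +
      4 * yy p j ^ 3 * C (2 * (Z j)⁻¹ * p.C j)) := by
  unfold c4
  rw [derivative_sum, derivative_sum]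
  refine Finset.sum_congr rfl fun j _ => ?_
  rw [← deriv2_yy]
  generalize yy p j = q
  rw [derivative_C_mul, derivative_C_mul]
  congr 1
  have h4 : q ^ 4 = q * (q * (q * q)) := by ring
  rw [h4]
  simp only [derivative_mul, derivative_add]
  ring

/-- the second derivatives do not both vanish at the exceptional parameter -/
theorem not_both [CharZero L] {Ω : Type v} [Field Ω] [Algebra L Ω]
    (h : V1 a Z S₀) {t κ : Ω} (hκ : κ ≠ 0) (hz : ∀ j, aeval t (zz p j) =
      κ * if j ∈ S₀ then algebraMap L Ω (Z j) ^ 2 else 0)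
    (h3 : aeval t (derivative (derivative (c3 p))) = 0)
    (h4 : aeval t (derivative (derivative (c4 p))) = 0) : False := by
  have hch : CharZero Ω := charZero_of_injective_algebraMap (algebraMap L Ω).injective
  set ι := algebraMap L Ω with hι
  have hZ : ∀ j, ι (Z j) ≠ 0 := fun j => by
    rw [Ne, map_eq_zero]
    exact h.ne j
  obtain ⟨η, hη⟩ : ∃ η : Fin 4 → Ω, ∀ j, aeval t (derivative (yy p j)) = η j := ⟨_, fun _ => rfl⟩
  obtain ⟨δ, hδ⟩ : ∃ δ : Fin 4 → Ω, ∀ j, δ j = if j ∈ S₀ then 1 else 0 := ⟨_, fun _ => rfl⟩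
  have hδ2 : ∀ j, δ j ^ 2 = δ j := fun j => by
    rw [hδ]
    split_ifs <;> norm_num
  have hY : ∀ j, aeval t (yy p j) = κ * δ j * ι (Z j) := by
    intro j
    rw [yy, map_mul, aeval_C, map_inv₀, hz, hδ, ← hι]
    have := hZ j
    by_cases hj : j ∈ S₀
    · rw [if_pos hj, if_pos hj]
      field_simp
    · rw [if_neg hj, if_neg hj]
      ring
  obtain ⟨P, hP⟩ : ∃ P : Ω, P = ∑ j, ι (a j) * δ j * ι (Z j) ^ 2 * η j ^ 2 := ⟨_, rfl⟩
  obtain ⟨V, hV⟩ : ∃ V : Ω, V = ∑ j, ι (a j) * δ j * ι (Z j) ^ 2 * ι (p.C j) := ⟨_, rfl⟩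
  have E3 : 6 * κ * P + 6 * κ ^ 2 * V = 0 := by
    rw [← h3, deriv2_c3, hP, hV, map_sum, Finset.mul_sum, Finset.mul_sum,
      ← Finset.sum_add_distrib]
    refine Finset.sum_congr rfl fun j _ => ?_
    simp only [map_mul, map_add, map_pow, aeval_C, map_ofNat, hη, hY, map_inv₀]
    rw [← hι]
    have := hZ j
    field_simp
    linear_combination (-(ι (a j) * κ * ι (p.C j)) * 6) * hδ2 j
  have E4 : 12 * κ ^ 2 * P + 8 * κ ^ 3 * V = 0 := by
    rw [← h4, deriv2_c4, hP, hV, map_sum, Finset.mul_sum, Finset.mul_sum,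
      ← Finset.sum_add_distrib]
    refine Finset.sum_congr rfl fun j _ => ?_
    simp only [map_mul, map_add, map_pow, aeval_C, map_ofNat, hη, hY, map_inv₀]
    rw [← hι]
    have := hZ j
    have h3 : δ j ^ 3 = δ j := by
      have : δ j ^ 3 = δ j ^ 2 * δ j := by ring
      rw [this, hδ2, ← pow_two, hδ2]
    field_simp
    linear_combination (-(12 * ι (a j) * η j ^ 2)) * hδ2 j -
      8 * ι (a j) * κ * ι (p.C j) * h3
  have hVN : κ * V = ι p.ρ := by
    have h5 := zval_C (p.map ι) t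
    have h6 : (p.map ι).ρ = ι p.ρ := rfl
    rw [← h6, ← h5, hV, Finset.mul_sum]
    refine Finset.sum_congr rfl fun j _ => ?_
    have hzj : zval (p.map ι) t j = κ * δ j * ι (Z j) ^ 2 := by
      rw [← aeval_zz, hz, hδ]
      split_ifs <;> ring
    rw [hzj]
    change _ = ι (a j) * ι (p.C j) * _
    ring
  have h5 : κ ^ 2 * (κ * V) = 0 := by
    have : 4 * (κ ^ 2 * (κ * V)) = 0 := by linear_combination 2 * κ * E3 - E4
    exact (mul_eq_zero.1 this).resolve_left (by norm_num)
  rw [hVN] at h5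
  exact p.ρne ((map_eq_zero ι).1 ((mul_eq_zero.1 h5).resolve_left (pow_ne_zero 2 hκ)))

/-- the common factor has degree at most two -/
theorem natDegree_common [CharZero L] (h : V1 a Z S₀) {g : L[X]}
    (hg0 : g ≠ 0) (h3 : g ∣ c3 p) (h4 : g ∣ c4 p) : g.natDegree ≤ 2 := by
  classical
  set ι := algebraMap L (AlgebraicClosure L) with hι
  set G : Polynomial (AlgebraicClosure L) := g.map ι with hG
  have hG0 : G ≠ 0 := (Polynomial.map_ne_zero_iff ι.injective).2 hg0
  have hdeg : G.natDegree = g.natDegree := natDegree_map _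
  have hcard := (IsAlgClosed.splits G).natDegree_eq_card_roots
  rw [← hdeg, hcard]
  by_cases hr : G.roots = 0
  · rw [hr, Multiset.card_zero]
    exact Nat.zero_le _
  obtain ⟨t, ht⟩ := Multiset.exists_mem_of_ne_zero hr
  have hval : ∀ s ∈ G.roots, ∃ κ : AlgebraicClosure L, κ ≠ 0 ∧
      ∀ j, aeval s (zz p j) = κ * if j ∈ S₀ then ι (Z j) ^ 2 else 0 := by
    intro s hs
    have h5 : aeval s g = 0 := by
      have h6 := (mem_roots hG0).1 hs
      rw [IsRoot.def, hG, eval_map_algebraMap] at h6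
      exact h6
    refine common p h ?_ ?_
    · obtain ⟨q, hq⟩ := h3
      rw [hq, map_mul, h5, zero_mul]
    · obtain ⟨q, hq⟩ := h4
      rw [hq, map_mul, h5, zero_mul]
  obtain ⟨κ, hκ, hz⟩ := hval t ht
  have h2 : (2 : AlgebraicClosure L) ≠ 0 := two_ne_zero
  have hall : ∀ s ∈ G.roots, t = s := by
    intro s hs
    obtain ⟨κ', hκ', hz'⟩ := hval s hs
    refine zval_inj (p.map ι) h2 (u := fun j => if j ∈ S₀ then ι (Z j) ^ 2 else 0)
      (κ₁ := κ) (κ₂ := κ') (fun j => ?_) (fun j => ?_)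
    · rw [← hz, ← aeval_zz]
    · rw [← hz', ← aeval_zz]
  rw [← Multiset.count_eq_card.2 hall, count_roots]
  by_contra hcon
  push Not at hcon
  have h5 : (X - C t) ^ 3 ∣ G := (pow_dvd_pow _ hcon).trans (pow_rootMultiplicity_dvd G t)
  have h6 : ∀ F : L[X], g ∣ F → aeval t (derivative (derivative F)) = 0 := by
    intro F hF
    have h7 := deriv2_of_dvd (h5.trans (Polynomial.map_dvd ι hF))
    rw [derivative_map, derivative_map, eval_map_algebraMap] at h7
    exact h7
  exact not_both p h hκ hz (h6 _ h3) (h6 _ h4)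

end

end Pool.Agent.T9h4.DQ
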