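import Pool.Agent.T9h4.DQ.RC
import Pool.Agent.R867.Mov.Spec3

/-!
A point of the generic fibre over the rational function field in one variable.
-/

set_option autoImplicit false
set_option linter.unusedSectionVars false

namespace Pool.Agent.T9h4.DQ

open MvPolynomial IntermediateField Pool.Agent.R867.Mov Pool.Agent.R867.D

universe u v

variable {k : Type u} {K : Type u} [Field k] [Field K] [Algebra k K] {N : ℕ}

theorem exists_point [IsAlgClosed k] {x : Fin N → K} (hx : adjoin k (Set.range x) = ⊤)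
    (hRC : RationallyConnected k x) {r : ℕ} {y : Fin r → K}
    (hy : Algebra.trdeg k (adjoin k (Set.range y)) = 1) {n : ℕ} {z : Fin n → K}
    (hz : ∀ i, z i ≠ 0) :
    ∃ (c : Fin N → RatFunc k) (φ : adjoin k (Set.range y) →ₐ[k] RatFunc k)
      (Z : Fin n → RatFunc k), (∀ Q : MvPolynomial (Fin N) k, aeval x Q = 0 → aeval c Q = 0) ∧
      (∀ i, Z i ≠ 0) ∧ (∀ i, Sp (k := k) x c (z i) (Z i)) ∧
      ∀ e : adjoin k (Set.range y), Sp (k := k) x c (e : K) (φ e) := by
  classical
  obtain ⟨E, hE⟩ : ∃ E : IntermediateField k K, E = adjoin k (Set.range y) := ⟨_, rfl⟩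
  rw [← hE] at hy ⊢
  have hyE : ∀ i, y i ∈ E := fun i => by
    rw [hE]
    exact subset_adjoin _ _ ⟨i, rfl⟩
  obtain ⟨y', hy'⟩ : ∃ y' : Fin r → E, ∀ i, (y' i : K) = y i := ⟨fun i => ⟨y i, hyE i⟩, fun _ => rfl⟩
  have hval : ∀ R : MvPolynomial (Fin r) k, ((aeval y' R : E) : K) = aeval y R := by
    intro R
    have h1 : (E.val : E →ₐ[k] K) (aeval y' R) = aeval (fun i => E.val (y' i)) R := by
      rw [← MvPolynomial.comp_aeval_apply]
    have h2 : (fun i => E.val (y' i)) = y := by
      funext i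
      exact hy' i
    rw [h2] at h1
    exact h1
  have htop : adjoin k (Set.range y') = ⊤ := by
    apply IntermediateField.map_injective E.val
    rw [adjoin_map, ← Set.range_comp, ← AlgHom.fieldRange_eq_map, fieldRange_val]
    have h2 : (E.val : E → K) ∘ y' = y := by
      funext i
      exact hy' i
    rw [h2, hE]
  obtain ⟨S, -, hS, halg⟩ := maxIndep (k := k) y' ∅
    (algebraicIndependent_empty_type_iff.2 (algebraMap k E).injective)
  have hEa : Algebra.IsAlgebraic (Algebra.adjoin k (y' '' S)) E := isAlg_of_adjoin _ y' htop halg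
  have hbas : IsTranscendenceBasis k (fun i : S => y' i) := by
    have h1 : Set.range (fun i : S => y' i) = y' '' S := by
      ext
      simp
    have hS' : AlgebraicIndependent k (fun i : S => y' i) := hS
    rw [hS'.isTranscendenceBasis_iff_isAlgebraic, h1]
    exact hEa
  have hcard : S.ncard = 1 := by
    have h1 := hbas.lift_cardinalMk_eq_trdeg
    rw [hy, Cardinal.lift_one] at h1
    have h2 : Cardinal.mk S = 1 := by
      rw [Cardinal.lift_eq_one] at h1
      exact h1
    rw [← Nat.card_coe_set_eq, Nat.card, h2, Cardinal.one_toNat]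
  obtain ⟨j₀, rfl⟩ := Set.ncard_eq_one.1 hcard
  have htr₀ : Transcendental k (y' j₀) :=
    AlgebraicIndependent.transcendental hS (⟨j₀, rfl⟩ : ({j₀} : Set (Fin r)))
  have htr : Transcendental k (y j₀) := by
    rw [← hy']
    intro h
    apply htr₀
    exact (isAlgebraic_algHom_iff E.val (FaithfulSMul.algebraMap_injective E K)).1 h
  choose P Q hQ hP using fun j => exists_frac hx (y j)
  choose P' Q' hQ' hP' using fun j => exists_frac hx (z j)
  obtain ⟨c, hc, hG, hB, htrc⟩ := curve_of_rc hRC ((∏ j, Q j) * (∏ j, Q' j) * ∏ j, P' j) (P j₀)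
    (Q j₀) (by
      rw [map_mul, map_mul, map_prod, map_prod, map_prod]
      refine mul_ne_zero (mul_ne_zero ?_ ?_) ?_
      · exact Finset.prod_ne_zero_iff.2 fun j _ => hQ j
      · exact Finset.prod_ne_zero_iff.2 fun j _ => hQ' j
      · refine Finset.prod_ne_zero_iff.2 fun j _ => ?_
        rw [← hP']
        exact mul_ne_zero (hz j) (hQ' j)) (hQ j₀) (by
      rw [← hP, mul_div_assoc, div_self (hQ j₀), mul_one]
      exact htr)
  rw [map_mul, map_mul, map_prod, map_prod, map_prod] at hG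
  have hQc : ∀ j, aeval c (Q j) ≠ 0 := fun j =>
    Finset.prod_ne_zero_iff.1 (left_ne_zero_of_mul (left_ne_zero_of_mul hG)) j (Finset.mem_univ _)
  have hQ'c : ∀ j, aeval c (Q' j) ≠ 0 := fun j =>
    Finset.prod_ne_zero_iff.1 (right_ne_zero_of_mul (left_ne_zero_of_mul hG)) j (Finset.mem_univ _)
  have hP'c : ∀ j, aeval c (P' j) ≠ 0 := fun j =>
    Finset.prod_ne_zero_iff.1 (right_ne_zero_of_mul hG) j (Finset.mem_univ _)
  obtain ⟨d, hd⟩ : ∃ d : Fin r → RatFunc k, ∀ j, d j = aeval c (P j) / aeval c (Q j) :=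
    ⟨_, fun _ => rfl⟩
  have hSpd : ∀ j, Sp (k := k) x c (y j) (d j) := fun j =>
    ⟨P j, Q j, hQc j, hP j, by rw [hd, div_mul_cancel₀ _ (hQc j)]⟩
  have hspec : ∀ R : MvPolynomial (Fin r) k, aeval y' R = 0 → aeval d R = 0 := by
    intro R hR
    have h1 := Sp.poly hSpd R
    rw [← hval, hR, ZeroMemClass.coe_zero] at h1
    exact h1.zero hc
  have hinj : ∀ R : MvPolynomial (Fin r) k, aeval d R = 0 → aeval y' R = 0 := by
    refine inj_of_indep hEa hspec ?_
    have h1 : AlgebraicIndependent k (fun _ : Unit => d j₀) := by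
      rw [algebraicIndependent_unique_type_iff, hd]
      exact htrc
    have h2 := h1.comp (fun _ : ({j₀} : Set (Fin r)) => ()) (by
      rintro ⟨i, hi⟩ ⟨j, hj⟩ _
      rw [Set.mem_singleton_iff] at hi hj
      exact Subtype.ext (hi.trans hj.symm))
    have h3 : (fun _ : Unit => d j₀) ∘ (fun _ : ({j₀} : Set (Fin r)) => ()) =
        fun i : ({j₀} : Set (Fin r)) => d i := by
      funext i
      have := i.2
      rw [Set.mem_singleton_iff] at this
      rw [this]
      rfl
    rwa [h3] at h2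
  obtain ⟨φ, hφ⟩ := embedG (aeval y' : MvPolynomial (Fin r) k →ₐ[k] E)
    (aeval d : MvPolynomial (Fin r) k →ₐ[k] RatFunc k) (fun R => ⟨hspec R, hinj R⟩)
    (fun f => exists_frac htop f)
  refine ⟨c, φ, fun j => aeval c (P' j) / aeval c (Q' j), hc,
    fun j => div_ne_zero (hP'c j) (hQ'c j),
    fun j => ⟨P' j, Q' j, hQ'c j, hP' j, by rw [div_mul_cancel₀ _ (hQ'c j)]⟩, fun e => ?_⟩
  obtain ⟨A, B, hBe, hAe⟩ := exists_frac htop e
  have h1 : Sp (k := k) x c ((aeval y' A : E) : K) (aeval d A) := by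
    rw [hval]
    exact Sp.poly hSpd A
  have h2 : Sp (k := k) x c ((aeval y' B : E) : K) (aeval d B) := by
    rw [hval]
    exact Sp.poly hSpd B
  have hBd : aeval d B ≠ 0 := fun h => hBe (hinj B h)
  have h3 := h1.mul (h2.inv hc hBd)
  have h4 : ((aeval y' A : E) : K) * ((aeval y' B : E) : K)⁻¹ = e := by
    have h5 : (e : K) * ((aeval y' B : E) : K) = ((aeval y' A : E) : K) := by
      have h6 := congrArg (fun t : E => (t : K)) hAe
      simpa using h6
    have h7 : ((aeval y' B : E) : K) ≠ 0 := by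
      intro h0
      exact hBe (Subtype.ext h0)
    rw [← h5, mul_assoc, mul_inv_cancel₀ h7, mul_one]
  have h5 : aeval d A * (aeval d B)⁻¹ = φ e := by
    have h6 := congrArg φ hAe
    rw [map_mul, hφ, hφ] at h6
    rw [← h6, mul_assoc, mul_inv_cancel₀ hBd, mul_one]
  rwa [h4, h5] at h3

end Pool.Agent.T9h4.DQ
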