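import Pool.Agent.T9h4.DQ.Max
import Pool.Agent.H552R3.Tsen.C1

/-!
Quadratic forms over the rational function field of one variable.
-/

set_option autoImplicit false
set_option linter.unusedSectionVars false
set_option linter.unusedSimpArgs false

namespace Pool.Agent.T9h4.DQ

universe u v

section

variable {k : Type u} [Field k] [IsAlgClosed k] [CharZero k]

theorem ternary (b : Fin 3 → RatFunc k) :
    ∃ z : Fin 3 → RatFunc k, z ≠ 0 ∧ ∑ i, b i * z i ^ 2 = 0 := by
  obtain ⟨z, hz, h⟩ := Pool.Agent.H552R3.Tsen.exists_zero (k := k) (L := RatFunc k)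
    (RatFunc.X : RatFunc k) (J := Unit) (fun _ => 1) (by
      intro h
      have h1 := Polynomial.transcendental_X k
      apply h1
      have h2 : algebraMap (Polynomial k) (RatFunc k) Polynomial.X = RatFunc.X :=
        RatFunc.algebraMap_X
      rw [← h2] at h
      exact (isAlgebraic_algebraMap_iff (RatFunc.algebraMap_injective k)).mp h) (by
      intro z
      refine ⟨z.denom, z.denom_ne_zero, fun _ => z.num, ?_⟩
      rw [Fintype.sum_unique, mul_one, HQ.aeval_X_rat, HQ.aeval_X_rat]
      have h1 := RatFunc.num_div_denom z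
      have h2 : algebraMap (Polynomial k) (RatFunc k) z.denom ≠ 0 := by
        rw [Ne, map_eq_zero_iff _ (RatFunc.algebraMap_injective k)]
        exact z.denom_ne_zero
      nth_rw 2 [← h1]
      field_simp) (by
      intro p hp j
      rw [Fintype.sum_unique, mul_one, HQ.aeval_X_rat,
        map_eq_zero_iff _ (RatFunc.algebraMap_injective k)] at hp
      exact hp)
    (I := Fin 3) (∑ i, MvPolynomial.C (b i) * MvPolynomial.X i ^ 2) 2 (by
      refine MvPolynomial.totalDegree_finsetSum_le fun i _ => ?_
      refine (MvPolynomial.totalDegree_mul _ _).trans ?_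
      rw [MvPolynomial.totalDegree_C, MvPolynomial.totalDegree_X_pow]) (by
      simp) (by
      rw [Fintype.card_fin]
      norm_num)
  refine ⟨z, hz, ?_⟩
  rw [← h, map_sum]
  simp

/-- the product of vectors of length five -/
def b5 {F : Type u} [Field F] (A x y : Fin 5 → F) : F := ∑ i, A i * x i * y i

/-- quadratic forms in five variables vanish on planes -/
theorem quinary (A : Fin 5 → RatFunc k) (hA : ∀ i, A i ≠ 0) : ∃ s t : Fin 5 → RatFunc k,
    LinearIndependent (RatFunc k) ![s, t] ∧ b5 A s s = 0 ∧ b5 A s t = 0 ∧ b5 A t t = 0 := by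
  obtain ⟨z, hz, hz0⟩ := ternary ![A 0, A 1, A 2]
  rw [Fin.sum_univ_three] at hz0
  simp only [Matrix.cons_val_zero, Matrix.cons_val_one, Matrix.cons_val] at hz0
  -- a vector orthogonal to the first one
  obtain ⟨u, i, hu, hui, hzi, huz⟩ : ∃ (u : Fin 3 → RatFunc k) (i : Fin 3), u ≠ 0 ∧ u i = 0 ∧
      z i ≠ 0 ∧ A 0 * z 0 * u 0 + A 1 * z 1 * u 1 + A 2 * z 2 * u 2 = 0 := by
    obtain ⟨i, hi⟩ := Function.ne_iff.1 hz
    rw [Pi.zero_apply] at hi
    fin_cases i
    · refine ⟨![0, A 2 * z 2, -(A 1 * z 1)], 0, ?_, rfl, hi, ?_⟩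
      · intro h0
        have h1 := congrFun h0 1
        have h2 := congrFun h0 2
        simp only [Matrix.cons_val_one, Matrix.cons_val, Pi.zero_apply, neg_eq_zero,
          Matrix.cons_val_zero, mul_eq_zero, hA, false_or] at h1 h2
        rw [h1, h2] at hz0
        have h3 : A 0 * z 0 ^ 2 = 0 := by linear_combination hz0
        exact mul_ne_zero (hA 0) (pow_ne_zero 2 hi) h3
      · simp only [Matrix.cons_val_one, Matrix.cons_val, Matrix.cons_val_zero]
        ring
    · refine ⟨![A 2 * z 2, 0, -(A 0 * z 0)], 1, ?_, rfl, hi, ?_⟩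
      · intro h0
        have h1 := congrFun h0 0
        have h2 := congrFun h0 2
        simp only [Matrix.cons_val_one, Matrix.cons_val, Pi.zero_apply, neg_eq_zero,
          Matrix.cons_val_zero, mul_eq_zero, hA, false_or] at h1 h2
        rw [h1, h2] at hz0
        have h3 : A 1 * z 1 ^ 2 = 0 := by linear_combination hz0
        exact mul_ne_zero (hA 1) (pow_ne_zero 2 hi) h3
      · simp only [Matrix.cons_val_one, Matrix.cons_val, Matrix.cons_val_zero]
        ring
    · refine ⟨![A 1 * z 1, -(A 0 * z 0), 0], 2, ?_, rfl, hi, ?_⟩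
      · intro h0
        have h1 := congrFun h0 0
        have h2 := congrFun h0 1
        simp only [Matrix.cons_val_one, Matrix.cons_val, Pi.zero_apply, neg_eq_zero,
          Matrix.cons_val_zero, mul_eq_zero, hA, false_or] at h1 h2
        rw [h1, h2] at hz0
        have h3 : A 2 * z 2 ^ 2 = 0 := by linear_combination hz0
        exact mul_ne_zero (hA 2) (pow_ne_zero 2 hi) h3
      · simp only [Matrix.cons_val_one, Matrix.cons_val, Matrix.cons_val_zero]
        ring
  obtain ⟨w, hw, hw0⟩ := ternary ![A 0 * u 0 ^ 2 + A 1 * u 1 ^ 2 + A 2 * u 2 ^ 2, A 3, A 4]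
  rw [Fin.sum_univ_three] at hw0
  simp only [Matrix.cons_val_zero, Matrix.cons_val_one, Matrix.cons_val] at hw0
  refine ⟨![z 0, z 1, z 2, 0, 0], ![w 0 * u 0, w 0 * u 1, w 0 * u 2, w 1, w 2], ?_, ?_, ?_, ?_⟩
  · rw [LinearIndependent.pair_iff]
    intro α β h
    have h0 := congrFun h 0
    have h1 := congrFun h 1
    have h2 := congrFun h 2
    have h3 := congrFun h 3
    have h4 := congrFun h 4
    simp only [Pi.add_apply, Pi.smul_apply, smul_eq_mul, Pi.zero_apply, Matrix.cons_val_zero,
      Matrix.cons_val_one, Matrix.cons_val, mul_zero, zero_add] at h0 h1 h2 h3 h4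
    have hj : ∀ j : Fin 3, α * z j + β * (w 0 * u j) = 0 := by
      intro j
      fin_cases j
      · exact h0
      · exact h1
      · exact h2
    have hα : α = 0 := by
      have h5 := hj i
      rw [hui, mul_zero, mul_zero, add_zero] at h5
      exact (mul_eq_zero.1 h5).resolve_right hzi
    refine ⟨hα, ?_⟩
    by_contra hβ
    have e1 := (mul_eq_zero.1 h3).resolve_left hβ
    have e2 := (mul_eq_zero.1 h4).resolve_left hβ
    have e0 : w 0 ≠ 0 := by
      intro e0
      apply hw
      funext j
      fin_cases j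
      · exact e0
      · exact e1
      · exact e2
    apply hu
    funext j
    have h5 := hj j
    rw [hα, zero_mul, zero_add] at h5
    exact (mul_eq_zero.1 ((mul_eq_zero.1 h5).resolve_left hβ)).resolve_left e0
  · unfold b5
    rw [Fin.sum_univ_five]
    simp only [Matrix.cons_val_zero, Matrix.cons_val_one, Matrix.cons_val]
    linear_combination hz0
  · unfold b5
    rw [Fin.sum_univ_five]
    simp only [Matrix.cons_val_zero, Matrix.cons_val_one, Matrix.cons_val]
    linear_combination w 0 * huz
  · unfold b5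
    rw [Fin.sum_univ_five]
    simp only [Matrix.cons_val_zero, Matrix.cons_val_one, Matrix.cons_val]
    linear_combination hw0

end

/-- planes in the form used above -/
theorem pl_of_lin {F : Type u} [Field F] {A s t : Fin 5 → F} (hst : LinearIndependent F ![s, t])
    (hss : b5 A s s = 0) (hs : b5 A s t = 0) (htt : b5 A t t = 0) :
    Pl (fun i => A (Fin.castSucc i)) (-A 4) (fun i => s (Fin.castSucc i))
      (fun i => t (Fin.castSucc i)) (s 4) (t 4) := by
  have h5 : ∀ x y : Fin 5 → F, b5 A x y = bil (fun i => A (Fin.castSucc i))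
      (fun i => x (Fin.castSucc i)) (fun i => y (Fin.castSucc i)) + A 4 * x 4 * y 4 := by
    intro x y
    unfold b5 bil
    rw [Fin.sum_univ_castSucc]
    rfl
  rw [h5] at hss hs htt
  refine ⟨by linear_combination hss, by linear_combination hs, by linear_combination htt, ?_⟩
  by_contra hcon
  push Not at hcon
  obtain ⟨h1, h2⟩ := hcon
  have h3 : ∀ i j : Fin 5, s i * t j - s j * t i = 0 := by
    intro i j
    refine Fin.lastCases ?_ (fun i => ?_) i
    · refine Fin.lastCases ?_ (fun j => ?_) j
      · ring
      · have := h2 j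
        change s 4 * t (Fin.castSucc j) - s (Fin.castSucc j) * t 4 = 0
        linear_combination -this
    · refine Fin.lastCases ?_ (fun j => ?_) j
      · exact h2 i
      · exact h1 i j
  rw [LinearIndependent.pair_iff] at hst
  by_cases hs0 : ∃ i, s i ≠ 0
  · obtain ⟨i, hi⟩ := hs0
    have h1 := hst (t i) (-(s i)) (by
      funext j
      simp only [Pi.add_apply, Pi.smul_apply, smul_eq_mul, Pi.zero_apply]
      linear_combination -h3 i j)
    exact hi (neg_eq_zero.1 h1.2)
  · push Not at hs0
    have h1 := hst 1 0 (by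
      funext j
      simp [hs0 j])
    exact one_ne_zero h1.1

end Pool.Agent.T9h4.DQ
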