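import Pool.Agent.T9h4.DQ.Crit
import Pool.Agent.T9h4.DQ.Tsen
import Pool.Agent.T9h4.DQ.Pnt

/-!
Rationally connected varieties with a fibration in diagonal quartic threefolds over a curve.
-/

set_option autoImplicit false
set_option linter.unusedSectionVars false

open IntermediateField
open Pool.Agent.R867.Mov (PT PT_rt)
open Pool.Agent.R867.D (RationallyConnected)
open Pool.Agent.T9h4.HQ (PT_ratFunc x_ne indep₀)

namespace Pool.Agent.T9h4.DQ

universe u v

/-- the criterion -/
theorem criterion {E F K : Type u} [Field E] [CharZero E] [Field F] [Algebra E F] [Field K]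
    [Algebra E K] {x : Fin 4 → K} {a : Fin 5 → E} (ha : ∀ i, a i ≠ 0)
    (hgen : adjoin E (Set.range x) = ⊤) (hxi : AlgebraicIndependent E (x ∘ Fin.castSucc))
    (hx : ∑ i : Fin 4, algebraMap E K (a i.castSucc) * x i ^ 4 + algebraMap E K (a 4) = 0)
    {s t : Fin 5 → F} (hst : LinearIndependent F ![s, t])
    (hss : b5 (algebraMap E F ∘ a) s s = 0) (hs : b5 (algebraMap E F ∘ a) s t = 0)
    (htt : b5 (algebraMap E F ∘ a) t t = 0) {Z : Fin 5 → F} (hZ : ∀ i, Z i ≠ 0)
    (hZ0 : ∑ i, algebraMap E F (a i) * Z i ^ 4 = 0) :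
    ∃ (L : Type u) (_ : Field L) (_ : Algebra F L) (σ : K →+* L), PT F L ∧
      ∀ e : E, σ (algebraMap E K e) = algebraMap F L (algebraMap E F e) := by
  have hpl := pl_of_lin hst hss hs htt
  have h1 : (fun i : Fin 4 => (algebraMap E F ∘ a) i.castSucc) =
      algebraMap E F ∘ fun i : Fin 4 => a i.castSucc := rfl
  have h2 : -(algebraMap E F ∘ a) 4 = algebraMap E F (-a 4) := by
    rw [map_neg]
    rfl
  rw [h1, h2] at hpl
  refine embed_over (a := fun i : Fin 4 => a i.castSucc) (c := -a 4) (fun i => ha _)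
    (neg_ne_zero.2 (ha 4)) hpl (Z := fun i => Z i.castSucc / Z 4)
    (fun i => div_ne_zero (hZ _) (hZ 4)) ?_ hgen ?_ hxi
  · have h3 : Z 4 ^ 4 * ∑ i : Fin 4, algebraMap E F (a i.castSucc) * (Z i.castSucc / Z 4) ^ 4 =
        ∑ i : Fin 4, algebraMap E F (a i.castSucc) * Z i.castSucc ^ 4 := by
      rw [Finset.mul_sum]
      refine Finset.sum_congr rfl fun i _ => ?_
      have := hZ 4
      field_simp
    rw [Fin.sum_univ_castSucc] at hZ0
    have h4 : (Fin.last 4) = 4 := rfl
    rw [h4] at hZ0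
    apply mul_left_cancel₀ (pow_ne_zero 4 (hZ 4))
    rw [h3, map_neg]
    linear_combination hZ0
  · rw [map_neg]
    linear_combination hx

/-- fibrations over curves -/
theorem main_aux {k : Type u} [Field k] [IsAlgClosed k] [CharZero k] {K : Type u} [Field K]
    [Algebra k K] {N : ℕ} {w : Fin N → K} (hw : adjoin k (Set.range w) = ⊤)
    (hRC : RationallyConnected k w) {r : ℕ} {y : Fin r → K}
    (hy : Algebra.trdeg k (adjoin k (Set.range y)) = 1) {x : Fin 4 → K}
    (hgen : adjoin (adjoin k (Set.range y)) (Set.range x) = ⊤)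
    (hxi : AlgebraicIndependent (adjoin k (Set.range y)) (x ∘ Fin.castSucc))
    {a : Fin 5 → adjoin k (Set.range y)} (ha : ∀ i, a i ≠ 0)
    (hx : ∑ i : Fin 4, (a i.castSucc : K) * x i ^ 4 + a 4 = 0) :
    ∃ n : ℕ, Nonempty (K →ₐ[k] FractionRing (MvPolynomial (Fin n) k)) := by
  have hchE : CharZero (adjoin k (Set.range y)) :=
    charZero_of_injective_algebraMap (algebraMap k (adjoin k (Set.range y))).injective
  have hx0 : ∀ i, x i ≠ 0 := x_ne (E := adjoin k (Set.range y))
    (a := fun i : Fin 4 => a i.castSucc) (c := -a 4) (fun i => ha _) hgen (by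
      rw [map_neg]
      change ∑ i : Fin 4, (a i.castSucc : K) * x i ^ 4 = -((a 4 : adjoin k (Set.range y)) : K)
      linear_combination hx) hxi
  obtain ⟨c, φ, Z, hc, hZ, hSp, hE⟩ := exists_point hw hRC hy hx0
  have hrel : ∑ i : Fin 4, φ (a i.castSucc) * Z i ^ 4 + φ (a 4) = 0 := by
    have h1 : Sp (k := k) w c (∑ i : Fin 4, (a i.castSucc : K) * x i ^ 4 + a 4)
        (∑ i : Fin 4, φ (a i.castSucc) * Z i ^ 4 + φ (a 4)) :=
      (Sp.sum _ fun i _ => (hE _).mul ((hSp i).pow 4)).add (hE _)
    rw [hx] at h1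
    exact h1.zero hc
  let _ : Algebra (adjoin k (Set.range y)) (RatFunc k) := φ.toRingHom.toAlgebra
  have hφ : ∀ e : adjoin k (Set.range y), algebraMap (adjoin k (Set.range y)) (RatFunc k) e = φ e :=
    fun _ => rfl
  obtain ⟨s, t, hst, hss, hs, htt⟩ := quinary
    (algebraMap (adjoin k (Set.range y)) (RatFunc k) ∘ a) (fun i => (map_ne_zero _).2 (ha i))
  obtain ⟨L, _, _, σ, hPT, hσ⟩ := criterion (F := RatFunc k) ha hgen hxi hx hst hss hs htt
    (Z := Fin.snoc (α := fun _ => RatFunc k) Z 1) (by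
      intro i
      refine Fin.lastCases ?_ (fun i => ?_) i
      · rw [Fin.snoc_last]
        exact one_ne_zero
      · rw [Fin.snoc_castSucc]
        exact hZ i) (by
      rw [Fin.sum_univ_castSucc]
      simp only [Fin.snoc_castSucc, Fin.snoc_last, hφ]
      rw [one_pow, mul_one]
      exact hrel)
  let _ : Algebra k L := ((algebraMap (RatFunc k) L).comp (algebraMap k (RatFunc k))).toAlgebra
  have : IsScalarTower k (RatFunc k) L := IsScalarTower.of_algebraMap_eq' rfl
  obtain ⟨n, ⟨e⟩⟩ := ((PT_ratFunc k).trans hPT).equiv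
  let σ' : K →ₐ[k] L := { σ with
    commutes' := by
      intro b
      have h1 := hσ (algebraMap k (adjoin k (Set.range y)) b)
      rw [hφ, φ.commutes] at h1
      exact h1 }
  exact ⟨n, ⟨e.toAlgHom.comp σ'⟩⟩

/-- the base of a fibration can be replaced by a finitely generated field -/
theorem exists_fin {k : Type u} [Field k] {K : Type u} [Field K] [Algebra k K]
    (E : IntermediateField k K) {x : Fin 4 → K} (hgen : adjoin E (Set.range x) = ⊤) {N : ℕ}
    {w : Fin N → K} (hw : adjoin k (Set.range w) = ⊤) (T₀ : Finset K) (hT₀ : ∀ t ∈ T₀, t ∈ E) :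
    ∃ T : Finset K, T₀ ⊆ T ∧ (∀ t ∈ T, t ∈ E) ∧
      adjoin k (Set.range x ∪ (T : Set K)) = ⊤ := by
  classical
  have h1 : ∀ j, ∃ R S : MvPolynomial (Fin 4) E,
      w j = MvPolynomial.aeval x R / MvPolynomial.aeval x S := by
    intro j
    have h2 : w j ∈ adjoin E (Set.range x) := by
      rw [hgen]
      trivial
    rwa [mem_adjoin_range_iff] at h2
  choose R S hRS using h1
  obtain ⟨T, hT⟩ : ∃ T : Finset K, T = T₀ ∪ (Finset.univ : Finset (Fin N)).biUnion (fun j =>
    (R j).support.image (fun d => (((R j).coeff d : E) : K)) ∪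
      (S j).support.image (fun d => (((S j).coeff d : E) : K))) := ⟨_, rfl⟩
  refine ⟨T, ?_, ?_, ?_⟩
  · rw [hT]
    exact Finset.subset_union_left
  · intro t ht
    rw [hT, Finset.mem_union, Finset.mem_biUnion] at ht
    rcases ht with ht | ⟨j, _, ht⟩
    · exact hT₀ t ht
    · rw [Finset.mem_union, Finset.mem_image, Finset.mem_image] at ht
      rcases ht with ⟨d, _, rfl⟩ | ⟨d, _, rfl⟩
      · exact SetLike.coe_mem _
      · exact SetLike.coe_mem _
  · rw [eq_top_iff, ← hw, adjoin_le_iff]
    rintro _ ⟨j, rfl⟩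
    have hx : ∀ i, x i ∈ adjoin k (Set.range x ∪ (T : Set K)) := fun i =>
      subset_adjoin _ _ (Or.inl ⟨i, rfl⟩)
    have key : ∀ P : MvPolynomial (Fin 4) E, (∀ d ∈ P.support, ((P.coeff d : E) : K) ∈ T) →
        MvPolynomial.aeval x P ∈ adjoin k (Set.range x ∪ (T : Set K)) := by
      intro P hP
      rw [MvPolynomial.aeval_def, MvPolynomial.eval₂_eq]
      refine sum_mem fun d hd => mul_mem ?_ (prod_mem fun i _ => pow_mem (hx i) _)
      exact subset_adjoin _ _ (Or.inr (Finset.mem_coe.2 (hP d hd)))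
    rw [SetLike.mem_coe, hRS]
    refine div_mem (key _ fun d hd => ?_) (key _ fun d hd => ?_)
    · rw [hT]
      refine Finset.mem_union_right _ (Finset.mem_biUnion.2 ⟨j, Finset.mem_univ _, ?_⟩)
      exact Finset.mem_union_left _ (Finset.mem_image_of_mem _ hd)
    · rw [hT]
      refine Finset.mem_union_right _ (Finset.mem_biUnion.2 ⟨j, Finset.mem_univ _, ?_⟩)
      exact Finset.mem_union_right _ (Finset.mem_image_of_mem _ hd)

/-- fibrations over curves -/
theorem main {k : Type u} [Field k] [IsAlgClosed k] [CharZero k] {K : Type u} [Field K]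
    [Algebra k K] {N : ℕ} {w : Fin N → K} (hw : adjoin k (Set.range w) = ⊤)
    (hRC : RationallyConnected k w) {E : IntermediateField k K} (hE : Algebra.trdeg k E = 1)
    {x : Fin 4 → K} (hgen : adjoin E (Set.range x) = ⊤) (htr : Algebra.trdeg E K = 3)
    {a : Fin 5 → E} (ha : ∀ i, a i ≠ 0)
    (hx : ∑ i : Fin 4, (a i.castSucc : K) * x i ^ 4 + a 4 = 0) :
    ∃ n : ℕ, Nonempty (K →ₐ[k] FractionRing (MvPolynomial (Fin n) k)) := by
  classical
  have hxi : AlgebraicIndependent E (x ∘ Fin.castSucc) := by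
    refine indep₀ (a := fun i : Fin 4 => a i.castSucc) (c := -a 4) hgen htr (ha _) ?_
    rw [map_neg]
    change ∑ i : Fin 4, (a i.castSucc : K) * x i ^ 4 = -((a 4 : E) : K)
    linear_combination hx
  obtain ⟨e₀, he₀⟩ : ∃ e₀ : E, Transcendental k e₀ := by
    obtain ⟨ι, v, hv⟩ := exists_isTranscendenceBasis' k E
    have h1 := hv.lift_cardinalMk_eq_trdeg
    rw [hE, Cardinal.lift_one, Cardinal.lift_eq_one] at h1
    obtain ⟨i⟩ : Nonempty ι := by
      rw [← Cardinal.mk_ne_zero_iff, h1]
      exact one_ne_zero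
    exact ⟨v i, hv.1.transcendental i⟩
  obtain ⟨T, hT₀, hTE, hT⟩ := exists_fin E hgen hw
    (insert (e₀ : K) (Finset.univ.image fun i => (a i : K))) (by
      intro t ht
      rw [Finset.mem_insert, Finset.mem_image] at ht
      rcases ht with rfl | ⟨i, _, rfl⟩
      · exact SetLike.coe_mem _
      · exact SetLike.coe_mem _)
  obtain ⟨r, y, hyT⟩ : ∃ (r : ℕ) (y : Fin r → K), Set.range y = (T : Set K) := by
    refine ⟨T.card, fun i => (T.equivFin.symm i : K), ?_⟩
    ext t
    constructor
    · rintro ⟨i, rfl⟩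
      exact (T.equivFin.symm i).2
    · intro ht
      exact ⟨T.equivFin ⟨t, ht⟩, by simp⟩
  have hmem : ∀ t ∈ T, t ∈ adjoin k (Set.range y) := fun t ht => by
    rw [hyT]
    exact subset_adjoin _ _ ht
  have hle : adjoin k (Set.range y) ≤ E := by
    rw [adjoin_le_iff, hyT]
    exact hTE
  have haT : ∀ i, (a i : K) ∈ adjoin k (Set.range y) := fun i => hmem _ (hT₀
    (Finset.mem_insert_of_mem (Finset.mem_image_of_mem _ (Finset.mem_univ _))))
  have heT : (e₀ : K) ∈ adjoin k (Set.range y) := hmem _ (hT₀ (Finset.mem_insert_self _ _))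
  let ι : adjoin k (Set.range y) →ₐ[k] E := inclusion hle
  have hy : Algebra.trdeg k (adjoin k (Set.range y)) = 1 := by
    apply le_antisymm
    · rw [← hE]
      exact trdeg_le_of_injective ι ι.toRingHom.injective
    · have h1 : AlgebraicIndependent k (fun _ : Unit =>
          (⟨e₀, heT⟩ : adjoin k (Set.range y))) := by
        rw [algebraicIndependent_unique_type_iff]
        intro h
        apply he₀
        have h2 := h.algHom ι
        exact h2
      have h2 := h1.lift_cardinalMk_le_trdeg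
      simpa using h2
  refine main_aux hw hRC hy (x := x) ?_ ?_ (a := fun i => ⟨a i, haT i⟩) ?_ hx
  · rw [eq_top_iff]
    intro z _
    have hz : z ∈ adjoin k (Set.range x ∪ (T : Set K)) := by
      rw [hT]
      trivial
    have h1 : adjoin k (Set.range x ∪ (T : Set K)) ≤
        (adjoin (adjoin k (Set.range y)) (Set.range x)).restrictScalars k := by
      rw [adjoin_le_iff]
      rintro z (⟨i, rfl⟩ | hz)
      · exact subset_adjoin (adjoin k (Set.range y)) (Set.range x) ⟨i, rfl⟩
      · exact (adjoin (adjoin k (Set.range y)) (Set.range x)).algebraMap_mem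
          (⟨z, hmem z hz⟩ : adjoin k (Set.range y))
    exact h1 hz
  · let _ : Algebra (adjoin k (Set.range y)) E := ι.toRingHom.toAlgebra
    have : IsScalarTower (adjoin k (Set.range y)) E K := IsScalarTower.of_algebraMap_eq' rfl
    exact hxi.restrictScalars (algebraMap (adjoin k (Set.range y)) E).injective
  · intro i h0
    exact ha i (Subtype.ext (congrArg (fun e : adjoin k (Set.range y) => (e : K)) h0))

end Pool.Agent.T9h4.DQ
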