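import Pool.Agent.T9h4.DQ.Step
import Pool.Agent.T9h4.HQ.Max

/-!
A generic point with coordinates in a purely transcendental extension.
-/

set_option autoImplicit false
set_option linter.unusedSectionVars false

open IntermediateField
open Pool.Agent.R867.Mov (PT maxIndep isAlg_of_adjoin)
open Pool.Agent.R867.D (inj_of_indep)
open Pool.Agent.T9h4.HQ (N1 V1 PT_ratFunc totalDegree_pderiv_lt eq_C_of_pderiv)

namespace Pool.Agent.T9h4.DQ

universe u v

/-- a totally isotropic plane of the form `∑ a_i z_i ^ 2 - c z_4 ^ 2` -/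
structure Pl {E : Type u} [Field E] (a : Fin 4 → E) (c : E) (s t : Fin 4 → E) (s4 t4 : E) :
    Prop where
  ss : bil a s s = c * s4 ^ 2
  st : bil a s t = c * s4 * t4
  tt : bil a t t = c * t4 ^ 2
  ind : (∃ i j, s i * t j - s j * t i ≠ 0) ∨ (∃ i, s i * t4 - s4 * t i ≠ 0)

theorem Pl.map {E : Type u} {A : Type v} [Field E] [Field A] {a : Fin 4 → E} {c : E}
    {s t : Fin 4 → E} {s4 t4 : E} (h : Pl a c s t s4 t4) (φ : E →+* A) :
    Pl (φ ∘ a) (φ c) (φ ∘ s) (φ ∘ t) (φ s4) (φ t4) := by
  refine ⟨?_, ?_, ?_, ?_⟩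
  · rw [bil_map, h.ss, map_mul, map_pow]
  · rw [bil_map, h.st, map_mul, map_mul]
  · rw [bil_map, h.tt, map_mul, map_pow]
  · rcases h.ind with ⟨i, j, hij⟩ | ⟨i, hi⟩
    · left
      refine ⟨i, j, ?_⟩
      simp only [Function.comp_apply]
      rw [← map_mul, ← map_mul, ← map_sub]
      exact (map_ne_zero φ).2 hij
    · right
      refine ⟨i, ?_⟩
      simp only [Function.comp_apply]
      rw [← map_mul, ← map_mul, ← map_sub]
      exact (map_ne_zero φ).2 hi

theorem Pl.par {L : Type u} [Field L] [CharZero L] {a : Fin 4 → L} {c : L}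
    {s t : Fin 4 → L} {s4 t4 : L} (h : Pl a c s t s4 t4) (ha : ∀ i, a i ≠ 0) {Z : Fin 4 → L}
    {S₀ : Finset (Fin 4)} (hZ : V1 a Z S₀) (hZc : ∑ i, a i * Z i ^ 4 = c) :
    Nonempty (Par a (HQ.sq Z)) := by
  have hv : bil a (HQ.sq Z) (HQ.sq Z) = c := by
    rw [← hZc]
    refine Finset.sum_congr rfl fun i _ => ?_
    unfold HQ.sq
    ring
  obtain ⟨w, hw0, hww, hvw⟩ := exists_iso hv h.ss h.st h.tt (by
    intro l m h1 h2
    rcases h.ind with ⟨i, j, hij⟩ | ⟨i, hi⟩
    · constructor
      · have h3 : l * (s i * t j - s j * t i) = 0 := by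
          linear_combination t j * h1 i - t i * h1 j
        exact (mul_eq_zero.1 h3).resolve_right hij
      · have h3 : m * (s i * t j - s j * t i) = 0 := by
          linear_combination s i * h1 j - s j * h1 i
        exact (mul_eq_zero.1 h3).resolve_right hij
    · constructor
      · have h3 : l * (s i * t4 - s4 * t i) = 0 := by
          linear_combination t4 * h1 i - t i * h2
        exact (mul_eq_zero.1 h3).resolve_right hi
      · have h3 : m * (s i * t4 - s4 * t i) = 0 := by
          linear_combination s i * h2 - s4 * h1 i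
        exact (mul_eq_zero.1 h3).resolve_right hi)
  exact exists_par two_ne_zero ha (V1.bil_ne hZ) hw0 hww hvw

/-- a point of the quartic is generic if all functions vanishing there also vanish at its residual
points -/
theorem indep_of_stable {E : Type u} [Field E] [CharZero E] {L : Type u} [Field L] [CharZero L]
    [Algebra E L] {a : Fin 4 → E} (ha : ∀ i, a i ≠ 0) {S₀ : Finset (Fin 4)} {Z : Fin 4 → L}
    (h : V1 (algebraMap E L ∘ a) Z S₀) {p : Par (algebraMap E L ∘ a) (HQ.sq Z)} (D : Dat p)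
    (hst : ∀ Q : MvPolynomial (Fin 4) E, MvPolynomial.aeval Z Q = 0 →
      MvPolynomial.aeval (rr D) (MvPolynomial.map (algebraMap E L) Q) = 0) :
    AlgebraicIndependent E (Z ∘ Fin.castSucc) := by
  have ha' : ∀ i, (algebraMap E L ∘ a) i ≠ 0 := fun i => (map_ne_zero _).2 (ha i)
  have key : ∀ (n : ℕ) (G : MvPolynomial (Fin 3) E), G.totalDegree ≤ n →
      MvPolynomial.aeval (Z ∘ Fin.castSucc) G = 0 → G = 0 := by
    intro n
    induction n with
    | zero =>
      intro G hG h0
      have h1 := (MvPolynomial.totalDegree_eq_zero_iff_eq_C).1 (Nat.le_zero.1 hG)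
      rw [h1, MvPolynomial.aeval_C] at h0
      rw [h1, (map_eq_zero _).1 h0, MvPolynomial.C_0]
    | succ n ih =>
      intro G hG h0
      set Q : MvPolynomial (Fin 4) E := MvPolynomial.rename Fin.castSucc G with hQ
      have hQ0 : MvPolynomial.aeval Z Q = 0 := by
        rw [hQ, MvPolynomial.aeval_rename]
        exact h0
      have h1 := (rr_zero D (hst Q hQ0)).2
      have h2 : MvPolynomial.pderiv 3 (MvPolynomial.map (algebraMap E L) Q) = 0 := by
        apply MvPolynomial.pderiv_eq_zero_of_notMem_vars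
        intro h3
        have h4 := MvPolynomial.vars_map _ (algebraMap E L) h3
        have h5 := MvPolynomial.mem_vars_rename _ _ h4
        obtain ⟨j, _, hj⟩ := h5
        exact (Fin.castSucc_lt_last j).ne hj
      have h3 : ∀ j : Fin 3, MvPolynomial.pderiv j G = 0 := by
        intro j
        by_contra hne
        have h4 := hh_zero ha' h p h1 3 (by rw [h2, map_zero]) (Fin.castSucc j)
        rw [MvPolynomial.pderiv_map, MvPolynomial.eval_map, hQ,
          MvPolynomial.pderiv_rename (Fin.castSucc_injective 3)] at h4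
        have h5 : MvPolynomial.aeval (Z ∘ Fin.castSucc) (MvPolynomial.pderiv j G) = 0 := by
          rw [← MvPolynomial.aeval_rename]
          exact h4
        have h6 := totalDegree_pderiv_lt G j hne
        exact hne (ih _ (by omega) h5)
      obtain ⟨b, hb⟩ := eq_C_of_pderiv h3
      rw [hb, MvPolynomial.aeval_C] at h0
      rw [hb, (map_eq_zero _).1 h0, MvPolynomial.C_0]
  unfold AlgebraicIndependent
  rw [injective_iff_map_eq_zero]
  exact fun G hG => key _ G le_rfl hG

/-- there is a good point with `r` independent coordinates -/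
def Pts (E : Type u) [Field E] (a : Fin 4 → E) (S₀ : Finset (Fin 4)) (c : E) (r : ℕ) : Prop :=
  ∃ (L : Type u) (_ : Field L) (_ : Algebra E L) (Z : Fin 4 → L) (S : Set (Fin 4)),
    PT E L ∧ V1 (algebraMap E L ∘ a) Z S₀ ∧
      ∑ j, algebraMap E L (a j) * Z j ^ 4 = algebraMap E L c ∧
      AlgebraicIndependent E (fun i : S => Z i) ∧ S.ncard = r

theorem Pts.le {E : Type u} [Field E] {a : Fin 4 → E} {S₀ : Finset (Fin 4)} {c : E} {r : ℕ}
    (h : Pts E a S₀ c r) : r ≤ 4 := by
  obtain ⟨L, _, _, Z, S, _, _, _, _, h4⟩ := h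
  rw [← h4]
  have := Set.ncard_le_card S
  rwa [Nat.card_fin] at this

theorem exists_generic {E : Type u} [Field E] [CharZero E] {a : Fin 4 → E} (ha : ∀ i, a i ≠ 0)
    {c : E} {s t : Fin 4 → E} {s4 t4 : E} (hPl : Pl a c s t s4 t4)
    {L₀ : Type u} [Field L₀] [Algebra E L₀] (hPT₀ : PT E L₀) {Z₀ : Fin 4 → L₀}
    {S₀ : Finset (Fin 4)} (hZ₀ : V1 (algebraMap E L₀ ∘ a) Z₀ S₀)
    (hc₀ : ∑ j, algebraMap E L₀ (a j) * Z₀ j ^ 4 = algebraMap E L₀ c) :
    ∃ (L : Type u) (_ : Field L) (_ : Algebra E L) (Z : Fin 4 → L), PT E L ∧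
      ∑ j, algebraMap E L (a j) * Z j ^ 4 = algebraMap E L c ∧
      AlgebraicIndependent E (Z ∘ Fin.castSucc) := by
  classical
  have h0 : Pts E a S₀ c 0 := by
    refine ⟨L₀, inferInstance, inferInstance, Z₀, ∅, hPT₀, hZ₀, hc₀, ?_,
      Set.ncard_empty _⟩
    exact algebraicIndependent_empty_type_iff.2 (algebraMap E _).injective
  obtain ⟨r, hr, hmax⟩ : ∃ r, Pts E a S₀ c r ∧ ∀ r', Pts E a S₀ c r' → r' ≤ r := by
    refine ⟨Nat.findGreatest (Pts E a S₀ c) 4, ?_, fun r' hr' => ?_⟩
    · exact Nat.findGreatest_spec (P := Pts E a S₀ c) (Nat.zero_le 4) h0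
    · exact Nat.le_findGreatest hr'.le hr'
  obtain ⟨L, _, _, Z, S, hPT, hZ, hZc, hS, hcard⟩ := hr
  have hch : CharZero L := charZero_of_injective_algebraMap (algebraMap E L).injective
  obtain ⟨p₀⟩ := (hPl.map (algebraMap E L)).par (fun i => (map_ne_zero _).2 (ha i)) hZ hZc
  obtain ⟨p, ⟨D⟩⟩ := exists_good p₀ hZ
  refine ⟨L, inferInstance, inferInstance, Z, hPT, hZc, indep_of_stable ha hZ D ?_⟩
  set R := rr D with hR
  have hev : ∀ Q : MvPolynomial (Fin 4) E,
      MvPolynomial.aeval R (MvPolynomial.map (algebraMap E L) Q) = MvPolynomial.aeval R Q :=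
    fun Q => MvPolynomial.aeval_map_algebraMap _ _ _
  have hsp : ∀ Q : MvPolynomial (Fin 4) E, MvPolynomial.aeval R Q = 0 →
      MvPolynomial.aeval Z Q = 0 := by
    intro Q hQ
    have h1 := (rr_zero D ((hev Q).trans hQ)).1
    rw [MvPolynomial.eval_map] at h1
    exact h1
  -- the field generated by the coordinates of the residual point
  set K := adjoin E (Set.range R) with hK
  set x : Fin 4 → K := fun i => ⟨R i, subset_adjoin _ _ ⟨i, rfl⟩⟩ with hx
  have hxR : ∀ Q : MvPolynomial (Fin 4) E, algebraMap K (RatFunc L) (MvPolynomial.aeval x Q) =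
      MvPolynomial.aeval R Q := by
    intro Q
    rw [← MvPolynomial.aeval_algebraMap_apply]
    rfl
  have hspx : ∀ Q : MvPolynomial (Fin 4) E, MvPolynomial.aeval x Q = 0 →
      MvPolynomial.aeval Z Q = 0 := fun Q hQ => hsp Q (by rw [← hxR, hQ, map_zero])
  have hxS : AlgebraicIndependent E (fun i : S => x i) := by
    unfold AlgebraicIndependent
    rw [injective_iff_map_eq_zero]
    intro P hP
    have h1 := hspx (MvPolynomial.rename Subtype.val P) (by
      rw [MvPolynomial.aeval_rename]
      exact hP)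
    rw [MvPolynomial.aeval_rename] at h1
    unfold AlgebraicIndependent at hS
    exact (injective_iff_map_eq_zero _).1 hS P h1
  obtain ⟨S', hSS', hS', halg⟩ := maxIndep x S hxS
  have htop : adjoin E (Set.range x) = ⊤ := by
    apply IntermediateField.map_injective K.val
    rw [adjoin_map, ← Set.range_comp, ← AlgHom.fieldRange_eq_map, fieldRange_val]
    rfl
  have hPT' : PT E (RatFunc L) := hPT.trans (PT_ratFunc L)
  have hmm : algebraMap E (RatFunc L) ∘ a =
      algebraMap L (RatFunc L) ∘ algebraMap E L ∘ a := by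
    rw [IsScalarTower.algebraMap_eq E L (RatFunc L)]
    rfl
  have hPts : Pts E a S₀ c S'.ncard := by
    refine ⟨RatFunc L, inferInstance, inferInstance, R, S', hPT', ?_, ?_, ?_, rfl⟩
    · rw [hmm]
      exact rr_v1 D hZ
    · have h1 := rr_sum D hZ.ne
      have h2 : ∀ j, algebraMap E (RatFunc L) (a j) =
          algebraMap L (RatFunc L) ((algebraMap E L ∘ a) j) := fun j => by
        rw [IsScalarTower.algebraMap_apply E L (RatFunc L)]
        rfl
      simp only [h2]
      rw [h1, IsScalarTower.algebraMap_apply E L (RatFunc L), ← hZc]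
      rfl
    · have h1 : AlgebraicIndependent E (fun i : S' => x i) := hS'
      exact h1.map' (f := K.val) K.val.injective
  have hle := hmax _ hPts
  have hSeq : S = S' := Set.eq_of_subset_of_ncard_le hSS' (by rw [hcard]; exact hle) S'.toFinite
  subst hSeq
  have hKa : Algebra.IsAlgebraic (Algebra.adjoin E (x '' S)) K := isAlg_of_adjoin _ x htop halg
  intro Q hQ
  rw [hev, ← hxR, inj_of_indep hKa hspx hS Q hQ, map_zero]

end Pool.Agent.T9h4.DQ
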