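import Pool.Agent.R867.D.RC

/-!
Rational curves on rationally connected varieties give points over the rational function field in
one variable.
-/

set_option autoImplicit false
set_option linter.unusedSectionVars false

namespace Pool.Agent.T9h4.DQ

open MvPolynomial IntermediateField Pool.Agent.R867.Mov Pool.Agent.R867.D

universe u v

section

variable {k : Type u} {K : Type u} [Field k] [Field K] [Algebra k K] {N : ℕ}

/-- a rational curve through a general point along which a given function is not constant -/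
theorem curve_of_rc [IsAlgClosed k] {x : Fin N → K} (h : RationallyConnected k x)
    (G A B : MvPolynomial (Fin N) k) (hG : aeval x G ≠ 0) (hB : aeval x B ≠ 0)
    (htr : Transcendental k (aeval x A / aeval x B)) :
    ∃ c : Fin N → RatFunc k, (∀ Q : MvPolynomial (Fin N) k, aeval x Q = 0 → aeval c Q = 0) ∧
      aeval c G ≠ 0 ∧ aeval c B ≠ 0 ∧ Transcendental k (aeval c A / aeval c B) := by
  obtain ⟨H, ⟨p₀, q₀, hp₀, hq₀, hH⟩, hJ⟩ := h
  have hd : DensePts k x := densePts_of_isAlgClosed x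
  -- the second point
  obtain ⟨H₁, hH₁⟩ : ∃ H₁ : MvPolynomial (Fin N) k, ∀ q : Fin N → k,
      eval q H₁ = eval (Sum.elim p₀ q) H := by
    refine ⟨aeval (Sum.elim (fun i => C (p₀ i)) X) H, fun q => eval_sub _ _ _ ?_ _⟩
    rintro (i | i)
    · exact eval_C _
    · exact eval_X _
  have hH₁x : aeval x H₁ ≠ 0 := by
    intro h0
    apply hH
    rw [← hH₁]
    exact hq₀ _ h0
  obtain ⟨q, hq, hqG⟩ := hd (H₁ * B) (by rw [map_mul]; exact mul_ne_zero hH₁x hB)
  rw [map_mul] at hqG
  have hqB : eval q B ≠ 0 := right_ne_zero_of_mul hqG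
  have hqH : eval (Sum.elim p₀ q) H ≠ 0 := by
    rw [← hH₁]
    exact left_ne_zero_of_mul hqG
  -- the first point
  obtain ⟨H₂, hH₂⟩ : ∃ H₂ : MvPolynomial (Fin N) k, ∀ p : Fin N → k,
      eval p H₂ = eval (Sum.elim p q) H := by
    refine ⟨aeval (Sum.elim X (fun i => C (q i))) H, fun p => eval_sub _ _ _ ?_ _⟩
    rintro (i | i)
    · exact eval_X _
    · exact eval_C _
  have hH₂x : aeval x H₂ ≠ 0 := by
    intro h0
    apply hqH
    rw [← hH₂]
    exact hp₀ _ h0
  have hABx : aeval x (A * C (eval q B) - C (eval q A) * B) ≠ 0 := by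
    intro h0
    apply htr
    rw [map_sub, map_mul, map_mul, aeval_C, aeval_C] at h0
    have h1 : aeval x A / aeval x B = algebraMap k K (eval q A / eval q B) := by
      rw [map_div₀, div_eq_div_iff hB (by rwa [Ne, map_eq_zero])]
      linear_combination h0
    rw [h1]
    exact isAlgebraic_algebraMap _
  obtain ⟨p, hp, hpG⟩ := hd (H₂ * (G * (B * (A * C (eval q B) - C (eval q A) * B)))) (by
    rw [map_mul, map_mul, map_mul]
    exact mul_ne_zero hH₂x (mul_ne_zero hG (mul_ne_zero hB hABx)))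
  rw [map_mul, map_mul, map_mul] at hpG
  have hpH : eval (Sum.elim p q) H ≠ 0 := by
    rw [← hH₂]
    exact left_ne_zero_of_mul hpG
  have hpG' : eval p G ≠ 0 := left_ne_zero_of_mul (right_ne_zero_of_mul hpG)
  have hpB : eval p B ≠ 0 :=
    left_ne_zero_of_mul (right_ne_zero_of_mul (right_ne_zero_of_mul hpG))
  have hpA : eval p (A * C (eval q B) - C (eval q A) * B) ≠ 0 :=
    right_ne_zero_of_mul (right_ne_zero_of_mul (right_ne_zero_of_mul hpG))
  obtain ⟨a, b, hb0, hb1, ha0, ha1, hrel⟩ := hJ p q hp hq hpH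
  have hb : b ≠ 0 := by
    rintro rfl
    exact hb0 (Polynomial.eval_zero)
  have hne : ∀ F : MvPolynomial (Fin N) k, eval p F ≠ 0 →
      aeval (fun i => algebraMap (Polynomial k) (RatFunc k) (a i) /
        algebraMap (Polynomial k) (RatFunc k) b) F ≠ 0 := by
    intro F hF h0
    obtain ⟨g, e, hg, hg'⟩ := clearP (a := a) hb F
    rw [h0, zero_mul] at hg
    have h1 : g = 0 := by
      apply RatFunc.algebraMap_injective k
      rw [map_zero]
      exact hg.symm
    have h2 := hg' 0 p ha0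
    rw [h1, Polynomial.eval_zero] at h2
    exact mul_ne_zero hF (pow_ne_zero _ hb0) h2
  refine ⟨_, hrel, hne _ hpG', hne _ hpB, ?_⟩
  intro halg
  obtain ⟨γ, hγ⟩ : ∃ γ : k, algebraMap k (RatFunc k) γ = _ :=
    minpoly.mem_range_of_degree_eq_one k _
      (IsAlgClosed.degree_eq_one_of_irreducible k (minpoly.irreducible halg.isIntegral))
  obtain ⟨g, e, hg, hg'⟩ := clearP (a := a) hb (A - C γ * B)
  have h0 : aeval (fun i => algebraMap (Polynomial k) (RatFunc k) (a i) /
        algebraMap (Polynomial k) (RatFunc k) b) (A - C γ * B) = 0 := by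
    rw [map_sub, map_mul, aeval_C, hγ, div_mul_cancel₀ _ (hne _ hpB), sub_self]
  rw [h0, zero_mul] at hg
  have h1 : g = 0 := by
    apply RatFunc.algebraMap_injective k
    rw [map_zero]
    exact hg.symm
  have h2 := hg' 0 p ha0
  have h3 := hg' 1 q ha1
  rw [h1, Polynomial.eval_zero, mul_eq_zero] at h2 h3
  have h4 := h2.resolve_right (pow_ne_zero _ hb0)
  have h5 := h3.resolve_right (pow_ne_zero _ hb1)
  rw [map_sub, map_mul, eval_C, sub_eq_zero] at h4 h5
  apply hpA
  rw [map_sub, map_mul, map_mul, eval_C, eval_C, h4, h5]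
  ring

/-! ### Specialization -/

variable {F : Type u} [Field F] [Algebra k F]

/-- the function `f` has the value `g` at the point `c` -/
def Sp (x : Fin N → K) (c : Fin N → F) (f : K) (g : F) : Prop :=
  ∃ P Q : MvPolynomial (Fin N) k, aeval c Q ≠ 0 ∧ f * aeval x Q = aeval x P ∧
    g * aeval c Q = aeval c P

variable {x : Fin N → K} {c : Fin N → F}
  (hc : ∀ Q : MvPolynomial (Fin N) k, aeval x Q = 0 → aeval c Q = 0)

include hc

theorem Sp.zero {g : F} (h : Sp (k := k) x c 0 g) : g = 0 := by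
  obtain ⟨P, Q, hQ, h1, h2⟩ := h
  rw [zero_mul] at h1
  rw [hc P h1.symm] at h2
  exact (mul_eq_zero.1 h2).resolve_right hQ

omit hc in
theorem Sp.add {f f' : K} {g g' : F} (h : Sp (k := k) x c f g) (h' : Sp (k := k) x c f' g') :
    Sp (k := k) x c (f + f') (g + g') := by
  obtain ⟨P, Q, hQ, h1, h2⟩ := h
  obtain ⟨P', Q', hQ', h1', h2'⟩ := h'
  refine ⟨P * Q' + P' * Q, Q * Q', ?_, ?_, ?_⟩
  · rw [map_mul]
    exact mul_ne_zero hQ hQ'
  · rw [map_mul, map_add, map_mul, map_mul, ← h1, ← h1']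
    ring
  · rw [map_mul, map_add, map_mul, map_mul, ← h2, ← h2']
    ring

omit hc in
theorem Sp.mul {f f' : K} {g g' : F} (h : Sp (k := k) x c f g) (h' : Sp (k := k) x c f' g') :
    Sp (k := k) x c (f * f') (g * g') := by
  obtain ⟨P, Q, hQ, h1, h2⟩ := h
  obtain ⟨P', Q', hQ', h1', h2'⟩ := h'
  refine ⟨P * P', Q * Q', ?_, ?_, ?_⟩
  · rw [map_mul]
    exact mul_ne_zero hQ hQ'
  · rw [map_mul, map_mul, ← h1, ← h1']
    ring
  · rw [map_mul, map_mul, ← h2, ← h2']
    ring

omit hc in
theorem Sp.const (a : k) : Sp (k := k) x c (algebraMap k K a) (algebraMap k F a) := by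
  refine ⟨C a, 1, ?_, ?_, ?_⟩
  · rw [map_one]
    exact one_ne_zero
  · rw [map_one, mul_one, aeval_C]
  · rw [map_one, mul_one, aeval_C]

omit hc in
theorem Sp.pow {f : K} {g : F} (h : Sp (k := k) x c f g) (n : ℕ) :
    Sp (k := k) x c (f ^ n) (g ^ n) := by
  induction n with
  | zero =>
    rw [pow_zero, pow_zero]
    have := Sp.const (x := x) (c := c) (1 : k)
    rwa [map_one, map_one] at this
  | succ n ih =>
    rw [pow_succ, pow_succ]
    exact ih.mul h

theorem Sp.inv {f : K} {g : F} (h : Sp (k := k) x c f g) (hg : g ≠ 0) :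
    Sp (k := k) x c f⁻¹ g⁻¹ := by
  obtain ⟨P, Q, hQ, h1, h2⟩ := h
  have hP : aeval c P ≠ 0 := by
    rw [← h2]
    exact mul_ne_zero hg hQ
  have hPx : aeval x P ≠ 0 := fun h0 => hP (hc P h0)
  have hf : f ≠ 0 := by
    rintro rfl
    rw [zero_mul] at h1
    exact hPx h1.symm
  refine ⟨Q, P, hP, ?_, ?_⟩
  · rw [← h1, ← mul_assoc, inv_mul_cancel₀ hf, one_mul]
  · rw [← h2, ← mul_assoc, inv_mul_cancel₀ hg, one_mul]

omit hc in
theorem Sp.poly {ι : Type*} {w : ι → K} {d : ι → F} (h : ∀ i, Sp (k := k) x c (w i) (d i))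
    (R : MvPolynomial ι k) : Sp (k := k) x c (aeval w R) (aeval d R) := by
  induction R using MvPolynomial.induction_on with
  | C a =>
    rw [aeval_C, aeval_C]
    exact Sp.const a
  | add p q hp hq =>
    rw [map_add, map_add]
    exact hp.add hq
  | mul_X p i hp =>
    rw [map_mul, map_mul, aeval_X, aeval_X]
    exact hp.mul (h i)

omit hc in
theorem Sp.sum {ι : Type*} (s : Finset ι) {w : ι → K} {d : ι → F}
    (h : ∀ i ∈ s, Sp (k := k) x c (w i) (d i)) :
    Sp (k := k) x c (∑ i ∈ s, w i) (∑ i ∈ s, d i) := by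
  classical
  induction s using Finset.induction_on with
  | empty =>
    rw [Finset.sum_empty, Finset.sum_empty]
    have := Sp.const (x := x) (c := c) (0 : k)
    rwa [map_zero, map_zero] at this
  | insert a s ha ih =>
    rw [Finset.sum_insert ha, Finset.sum_insert ha]
    exact (h a (Finset.mem_insert_self _ _)).add
      (ih fun i hi => h i (Finset.mem_insert_of_mem hi))

end

end Pool.Agent.T9h4.DQ
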