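import Pool.Agent.T9h4.DQ.Gcd
import Pool.Agent.T9h4.HQ.Step

/-!
The residual point.
-/

set_option autoImplicit false
set_option linter.unusedSectionVars false

open Polynomial
open Pool.Agent.T9h4.HQ (N1 V1 am_inj aeval_X_rat)

namespace Pool.Agent.T9h4.DQ

universe u v

variable {L : Type u} [Field L] {a Z : Fin 4 → L} {S₀ : Finset (Fin 4)} {p : Par a (HQ.sq Z)}

/-- the data defining the residual point -/
structure Dat (p : Par a (HQ.sq Z)) where
  g : L[X]
  u3 : L[X]
  u4 : L[X]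
  e3 : c3 p = g * u3
  e4 : c4 p = g * u4
  cop : IsCoprime u3 u4
  deg : 3 ≤ u3.natDegree

theorem exists_dat [CharZero L] (h : V1 a Z S₀) (h6' : (c3 p).coeff 6 ≠ 0) :
    Nonempty (Dat p) := by
  classical
  have h6 : 6 ≤ (c3 p).natDegree := le_natDegree_of_ne_zero h6'
  have h3ne : c3 p ≠ 0 := by
    intro h0
    rw [h0, natDegree_zero] at h6
    omega
  set g := EuclideanDomain.gcd (c3 p) (c4 p) with hg
  obtain ⟨u3, e3⟩ := EuclideanDomain.gcd_dvd_left (c3 p) (c4 p)
  obtain ⟨u4, e4⟩ := EuclideanDomain.gcd_dvd_right (c3 p) (c4 p)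
  rw [← hg] at e3 e4
  have hg0 : g ≠ 0 := by
    intro h0
    rw [h0, zero_mul] at e3
    exact h3ne e3
  have hu0 : u3 ≠ 0 := by
    intro h0
    rw [h0, mul_zero] at e3
    exact h3ne e3
  have hab := EuclideanDomain.gcd_eq_gcd_ab (c3 p) (c4 p)
  rw [← hg] at hab
  generalize EuclideanDomain.gcdA (c3 p) (c4 p) = α at hab
  generalize EuclideanDomain.gcdB (c3 p) (c4 p) = β at hab
  have hcop : IsCoprime u3 u4 := by
    refine ⟨α, β, ?_⟩
    apply mul_left_cancel₀ hg0
    rw [e3, e4] at hab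
    linear_combination -hab
  have hdeg := natDegree_common p h hg0 ⟨u3, e3⟩ ⟨u4, e4⟩
  rw [e3, natDegree_mul hg0 hu0] at h6
  exact ⟨⟨g, u3, u4, e3, e4, hcop, by omega⟩⟩

/-- a good parametrization exists -/
theorem exists_good [CharZero L] (p : Par a (HQ.sq Z)) (h : V1 a Z S₀) :
    ∃ p' : Par a (HQ.sq Z), Nonempty (Dat p') := by
  have h1 := c3_ne p h
  obtain ⟨t, ht⟩ : ∃ t : L, (c3 p).eval t ≠ 0 := by
    by_contra hcon
    push Not at hcon
    exact h1 (Polynomial.funext fun t => by rw [hcon t, eval_zero])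
  refine ⟨p.move t, exists_dat h ?_⟩
  rw [coeff_c3]
  intro h0
  apply ht
  rw [← h0, c3, eval_finsetSum]
  refine Finset.sum_congr rfl fun j _ => ?_
  rw [eval_mul, eval_C, eval_pow, yy, eval_mul, eval_C]
  have h2 : (p.move t).C j = (zz p j).eval t := by
    change zval p t j = _
    unfold zval zz
    simp only [eval_add, eval_mul, eval_C, eval_X, eval_pow]
  rw [h2]

variable (D : Dat p)

theorem Dat.u3_ne : D.u3 ≠ 0 := by
  intro h0
  have := D.deg
  rw [h0, natDegree_zero] at this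
  omega

theorem Dat.u4_ne : D.u4 ≠ 0 := by
  intro h0
  have h1 := D.cop
  rw [h0, isCoprime_zero_right] at h1
  have h2 := natDegree_eq_zero_of_isUnit h1
  have h3 := D.deg
  omega

/-- the parameter of the residual point -/
noncomputable def ss : RatFunc L :=
  algebraMap L[X] (RatFunc L) (C (-4) * D.u3) / algebraMap L[X] (RatFunc L) D.u4

/-- the residual point -/
noncomputable def rr (j : Fin 4) : RatFunc L :=
  algebraMap L[X] (RatFunc L) (C (Z j)) + ss D * algebraMap L[X] (RatFunc L) (yy p j)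

/-- the derivative in the direction -/
noncomputable def hh (p : Par a (HQ.sq Z)) (G : MvPolynomial (Fin 4) L) : L[X] :=
  ∑ j, C (MvPolynomial.eval Z (MvPolynomial.pderiv j G)) * yy p j

theorem u4_ne' : algebraMap L[X] (RatFunc L) D.u4 ≠ 0 := by
  rw [Ne, map_eq_zero_iff _ am_inj]
  exact D.u4_ne

theorem ss_mul : ss D * algebraMap L[X] (RatFunc L) D.u4 =
      algebraMap L[X] (RatFunc L) (C (-4) * D.u3) :=
  div_mul_cancel₀ _ (u4_ne' D)

theorem rr_mul (j : Fin 4) :
    rr D j * algebraMap L[X] (RatFunc L) D.u4 =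
      algebraMap L[X] (RatFunc L) (D.u4 * C (Z j) + C (-4) * D.u3 * yy p j) := by
  rw [rr, add_mul, mul_assoc, mul_comm (algebraMap L[X] (RatFunc L) (yy p j)), ← mul_assoc,
    ss_mul D, ← map_mul, ← map_mul, ← map_add]
  congr 1
  ring

theorem hh_C (p : Par a (HQ.sq Z)) (b : L) : hh p (MvPolynomial.C b) = 0 := by
  unfold hh
  refine Finset.sum_eq_zero fun j _ => ?_
  rw [MvPolynomial.pderiv_C, map_zero, map_zero, zero_mul]

theorem hh_add (p : Par a (HQ.sq Z)) (P Q : MvPolynomial (Fin 4) L) :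
    hh p (P + Q) = hh p P + hh p Q := by
  unfold hh
  rw [← Finset.sum_add_distrib]
  refine Finset.sum_congr rfl fun j _ => ?_
  rw [map_add, map_add, map_add, add_mul]

theorem hh_mul_X (p : Par a (HQ.sq Z)) (P : MvPolynomial (Fin 4) L) (i : Fin 4) :
    hh p (P * MvPolynomial.X i) = hh p P * C (Z i) +
      C (MvPolynomial.eval Z P) * yy p i := by
  classical
  unfold hh
  have h1 : ∀ j, C (MvPolynomial.eval Z (MvPolynomial.pderiv j (P * MvPolynomial.X i))) *
      yy p j = C (MvPolynomial.eval Z (MvPolynomial.pderiv j P)) * yy p j * C (Z i) +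
        if j = i then C (MvPolynomial.eval Z P) * yy p j else 0 := by
    intro j
    rw [MvPolynomial.pderiv_mul]
    by_cases hj : j = i
    · rw [if_pos hj, hj, MvPolynomial.pderiv_X_self]
      simp only [map_add, map_mul, MvPolynomial.eval_X, map_one]
      ring
    · rw [if_neg hj, MvPolynomial.pderiv_X_of_ne (Ne.symm hj)]
      simp only [map_add, map_mul, MvPolynomial.eval_X, mul_zero, map_zero]
      ring
  rw [Finset.sum_congr rfl fun j _ => h1 j, Finset.sum_add_distrib, ← Finset.sum_mul]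
  congr 1
  rw [Finset.sum_ite_eq' Finset.univ i, if_pos (Finset.mem_univ _)]

theorem expand (G : MvPolynomial (Fin 4) L) : ∃ (e : ℕ) (E : L[X]),
      algebraMap L[X] (RatFunc L) (D.u4) ^ (e + 2) * MvPolynomial.aeval (rr D) G =
        algebraMap L[X] (RatFunc L) (D.u4 ^ (e + 2) * C (MvPolynomial.eval Z G) +
          D.u4 ^ (e + 1) * (C (-4) * D.u3) * hh p G + (C (-4) * D.u3) ^ 2 * E) := by
  induction G using MvPolynomial.induction_on with
  | C b =>
    refine ⟨0, 0, ?_⟩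
    rw [hh_C, MvPolynomial.aeval_C, MvPolynomial.eval_C, mul_zero, mul_zero, add_zero, add_zero,
      map_mul, map_pow]
    congr 1
  | add P Q hp hq =>
    obtain ⟨e₁, E₁, h₁⟩ := hp
    obtain ⟨e₂, E₂, h₂⟩ := hq
    refine ⟨e₁ + e₂, D.u4 ^ e₂ * E₁ + D.u4 ^ e₁ * E₂, ?_⟩
    have h3 : algebraMap L[X] (RatFunc L) (D.u4) ^ (e₁ + e₂ + 2) *
        MvPolynomial.aeval (rr D) (P + Q) =
        algebraMap L[X] (RatFunc L) (D.u4) ^ e₂ *
          (algebraMap L[X] (RatFunc L) (D.u4) ^ (e₁ + 2) * MvPolynomial.aeval (rr D) P) +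
        algebraMap L[X] (RatFunc L) (D.u4) ^ e₁ *
          (algebraMap L[X] (RatFunc L) (D.u4) ^ (e₂ + 2) * MvPolynomial.aeval (rr D) Q) := by
      rw [map_add]
      ring
    rw [h3, h₁, h₂, ← map_pow, ← map_pow, ← map_mul, ← map_mul, ← map_add, hh_add]
    congr 1
    rw [map_add (MvPolynomial.eval Z), map_add C]
    ring
  | mul_X P i hp =>
    obtain ⟨e, E, h₁⟩ := hp
    refine ⟨e + 1, D.u4 ^ (e + 1) * hh p P * yy p i +
      E * (D.u4 * C (Z i) + C (-4) * D.u3 * yy p i), ?_⟩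
    have h3 : algebraMap L[X] (RatFunc L) (D.u4) ^ (e + 1 + 2) *
        MvPolynomial.aeval (rr D) (P * MvPolynomial.X i) =
        (algebraMap L[X] (RatFunc L) (D.u4) ^ (e + 2) * MvPolynomial.aeval (rr D) P) *
          (rr D i * algebraMap L[X] (RatFunc L) (D.u4)) := by
      rw [map_mul, MvPolynomial.aeval_X]
      ring
    rw [h3, h₁, rr_mul D, ← map_mul, hh_mul_X]
    congr 1
    rw [map_mul (MvPolynomial.eval Z), map_mul C, MvPolynomial.eval_X]
    ring

theorem natDegree_hh (p : Par a (HQ.sq Z)) (G : MvPolynomial (Fin 4) L) :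
    (hh p G).natDegree ≤ 2 := by
  unfold hh
  refine natDegree_sum_le_of_forall_le _ _ fun j _ => ?_
  exact (natDegree_C_mul_le _ _).trans (natDegree_yy p j)

variable [CharZero L]

theorem rr_zero {G : MvPolynomial (Fin 4) L} (hG : MvPolynomial.aeval (rr D) G = 0) :
    MvPolynomial.eval Z G = 0 ∧ hh p G = 0 := by
  obtain ⟨e, E, h1⟩ := expand D G
  rw [hG, mul_zero] at h1
  have h2 := am_inj (h1.symm.trans (map_zero _).symm)
  have h4 : (C (-4) : L[X]) ≠ 0 := by
    rw [Ne, C_eq_zero]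
    norm_num
  have h3ne := D.u3_ne
  have hcop : ∀ n : ℕ, IsCoprime (D.u3) (D.u4 ^ n) := fun n => D.cop.pow_right
  have hev : MvPolynomial.eval Z G = 0 := by
    by_contra hne
    have h5 : D.u3 ∣ D.u4 ^ (e + 2) * C (MvPolynomial.eval Z G) := by
      refine ⟨-(D.u4 ^ (e + 1) * C (-4) * hh p G + C (-4) ^ 2 * D.u3 * E), ?_⟩
      linear_combination h2
    have h6 := (hcop (e + 2)).dvd_of_dvd_mul_left h5
    have h7 : IsUnit (C (MvPolynomial.eval Z G)) := by
      rw [isUnit_C]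
      exact isUnit_iff_ne_zero.2 hne
    have h8 := natDegree_eq_zero_of_isUnit (isUnit_of_dvd_unit h6 h7)
    have := D.deg
    omega
  refine ⟨hev, ?_⟩
  rw [hev, map_zero, mul_zero, zero_add] at h2
  have h5 : D.u3 * (C (-4) * (D.u4 ^ (e + 1) * hh p G + C (-4) * D.u3 * E)) = 0 := by
    linear_combination h2
  have h6 := ((mul_eq_zero.1 ((mul_eq_zero.1 h5).resolve_left h3ne))).resolve_left h4
  have h7 : D.u3 ∣ D.u4 ^ (e + 1) * hh p G := by
    refine ⟨-(C (-4) * E), ?_⟩
    linear_combination h6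
  have h8 := (hcop (e + 1)).dvd_of_dvd_mul_left h7
  by_contra hne
  have h9 := natDegree_le_of_dvd h8 hne
  have h10 := D.deg
  have h11 := natDegree_hh p G
  omega

theorem rr_sum (hne : ∀ j, Z j ≠ 0) :
    ∑ j, algebraMap L (RatFunc L) (a j) * rr D j ^ 4 =
      algebraMap L (RatFunc L) (∑ j, a j * Z j ^ 4) := by
  have hv : ∀ j, zval (p.map (algebraMap L (RatFunc L)))
      RatFunc.X j = algebraMap L[X] (RatFunc L) (zz p j) := fun j => by
    rw [← aeval_zz, aeval_X_rat]
  have h2 := zval_sq (p.map (algebraMap L (RatFunc L))) RatFunc.X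
  have h1 := zval_lin (p.map (algebraMap L (RatFunc L))) RatFunc.X
  simp only [hv] at h1 h2
  set α := algebraMap L[X] (RatFunc L) with hα
  have hαC : ∀ a : L, α (C a) = algebraMap L (RatFunc L) a := fun a => by
    rw [IsScalarTower.algebraMap_apply L L[X] (RatFunc L)]
    rfl
  have hy : ∀ j, α (C (Z j)) * α (yy p j) = α (zz p j) := by
    intro j
    rw [yy, ← map_mul, ← mul_assoc, ← C_mul, mul_inv_cancel₀ (hne j), C_1, one_mul]
  have e1 : ∑ j, α (C (a j)) * α (C (Z j)) ^ 3 * α (yy p j) = 0 := by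
    rw [← h1]
    refine Finset.sum_congr rfl fun j _ => ?_
    change _ = algebraMap L (RatFunc L) (a j) * algebraMap L (RatFunc L) (Z j ^ 2) * _
    rw [← hy, ← hαC, ← hαC, C_pow, map_pow]
    ring
  have e2 : ∑ j, α (C (a j)) * α (C (Z j)) ^ 2 * α (yy p j) ^ 2 = 0 := by
    rw [← h2]
    refine Finset.sum_congr rfl fun j _ => ?_
    change _ = algebraMap L (RatFunc L) (a j) * _
    rw [← hy, ← hαC]
    ring
  have e3 : ∑ j, α (C (a j)) * α (C (Z j)) * α (yy p j) ^ 3 = α (c3 p) := by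
    rw [c3, map_sum]
    refine Finset.sum_congr rfl fun j _ => ?_
    rw [C_mul, map_mul, map_mul, map_pow]
  have e4 : ∑ j, α (C (a j)) * α (yy p j) ^ 4 = α (c4 p) := by
    rw [c4, map_sum]
    refine Finset.sum_congr rfl fun j _ => ?_
    rw [map_mul, map_pow]
  have h5 : ∑ j, algebraMap L (RatFunc L) (a j) * rr D j ^ 4 =
      ∑ j, α (C (a j)) * α (C (Z j)) ^ 4 +
      4 * ss D * ∑ j, α (C (a j)) * α (C (Z j)) ^ 3 * α (yy p j) +
      6 * ss D ^ 2 * ∑ j, α (C (a j)) * α (C (Z j)) ^ 2 * α (yy p j) ^ 2 +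
      4 * ss D ^ 3 * ∑ j, α (C (a j)) * α (C (Z j)) * α (yy p j) ^ 3 +
      ss D ^ 4 * ∑ j, α (C (a j)) * α (yy p j) ^ 4 := by
    simp only [Finset.mul_sum]
    rw [← Finset.sum_add_distrib, ← Finset.sum_add_distrib, ← Finset.sum_add_distrib,
      ← Finset.sum_add_distrib]
    refine Finset.sum_congr rfl fun j _ => ?_
    unfold rr
    rw [← hα, hαC (a j)]
    ring
  rw [h5, e1, e2, e3, e4, D.e3, D.e4, map_mul, map_mul]
  have h6 := ss_mul D
  rw [← hα, map_mul] at h6
  have h7 : α (C (-4 : L)) = -4 := by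
    rw [hαC, map_neg]
    congr 1
    exact map_ofNat _ 4
  rw [h7] at h6
  have h8 : algebraMap L (RatFunc L) (∑ j, a j * Z j ^ 4) =
      ∑ j, α (C (a j)) * α (C (Z j)) ^ 4 := by
    rw [map_sum]
    refine Finset.sum_congr rfl fun j _ => ?_
    rw [hαC, hαC, map_mul, map_pow]
  rw [h8]
  linear_combination ss D ^ 3 * α D.g * h6

theorem rr_v1 (h : V1 a Z S₀) : V1 (algebraMap L (RatFunc L) ∘ a) (rr D) S₀ := by
  have hpart : ∀ S : Finset (Fin 4), ∑ i ∈ S, algebraMap L (RatFunc L) (a i) * rr D i ^ 4 = 0 →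
      ∑ i ∈ S, a i * Z i ^ 4 = 0 := by
    intro S h0
    have h1 := (rr_zero D (G := ∑ i ∈ S, MvPolynomial.C (a i) * MvPolynomial.X i ^ 4) (by
      rw [map_sum]
      simp only [map_mul, map_pow, MvPolynomial.aeval_X, MvPolynomial.aeval_C]
      exact h0)).1
    rw [map_sum] at h1
    simpa only [map_mul, map_pow, MvPolynomial.eval_X, MvPolynomial.eval_C] using h1
  refine ⟨?_, ?_, ?_⟩
  · intro i h0
    apply h.ne i
    have h1 := (rr_zero D (G := MvPolynomial.X i) (by
      rw [MvPolynomial.aeval_X]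
      exact h0)).1
    rwa [MvPolynomial.eval_X] at h1
  · intro h0
    exact h.tot (hpart _ h0)
  · intro S hS h0
    exact h.uniq S hS (hpart S h0)

/-- a gradient orthogonal to the conic with a vanishing component vanishes -/
theorem hh_zero (ha : ∀ i, a i ≠ 0) (h : V1 a Z S₀) (p : Par a (HQ.sq Z))
    {G : MvPolynomial (Fin 4) L} (hG : hh p G = 0) (i₀ : Fin 4)
    (h3 : MvPolynomial.eval Z (MvPolynomial.pderiv i₀ G) = 0) (j : Fin 4) :
    MvPolynomial.eval Z (MvPolynomial.pderiv j G) = 0 := by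
  obtain ⟨w, hw⟩ : ∃ w : Fin 4 → L, ∀ j, w j = (a j)⁻¹ *
    (MvPolynomial.eval Z (MvPolynomial.pderiv j G) * (Z j)⁻¹) := ⟨_, fun _ => rfl⟩
  have hw' : ∀ j, a j * w j = MvPolynomial.eval Z (MvPolynomial.pderiv j G) * (Z j)⁻¹ := by
    intro j
    rw [hw, ← mul_assoc, mul_inv_cancel₀ (ha j), one_mul]
  have key : ∀ n : ℕ, ∑ j, a j * w j * (zz p j).coeff n = 0 := by
    intro n
    have h1 := congrArg (fun p => p.coeff n) hG
    simp only [hh, yy] at h1
    rw [finsetSum_coeff, coeff_zero] at h1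
    rw [← h1]
    refine Finset.sum_congr rfl fun j _ => ?_
    rw [coeff_C_mul, coeff_C_mul, hw']
    ring
  have k0 : bil a w p.A = 0 := by
    rw [← key 0]
    refine Finset.sum_congr rfl fun j _ => ?_
    rw [coeff_zz0]
  have k1 : bil a w p.M = 0 := by
    rw [← key 1]
    refine Finset.sum_congr rfl fun j _ => ?_
    rw [coeff_zz1]
  have k2 : bil a w p.C = 0 := by
    rw [← key 2]
    refine Finset.sum_congr rfl fun j _ => ?_
    rw [coeff_zz]
  have hfin : ∀ j, w j = bil a w (HQ.sq Z) * Z j ^ 2 / bil a (HQ.sq Z) (HQ.sq Z) := by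
    intro j
    have h1 := complete p two_ne_zero w j
    rw [k0, k1, k2] at h1
    rw [h1]
    unfold HQ.sq
    ring
  have hw0 : w i₀ = 0 := by rw [hw, h3, zero_mul, mul_zero]
  have hΛ0 : bil a w (HQ.sq Z) = 0 := by
    have h1 := hfin i₀
    rw [hw0] at h1
    have h2 := (div_eq_zero_iff.1 h1.symm).resolve_right p.vv
    exact (mul_eq_zero.1 h2).resolve_right (pow_ne_zero 2 (h.ne i₀))
  have h4 := hfin j
  rw [hΛ0, zero_mul, zero_div] at h4
  have h6 := hw' j
  rw [h4, mul_zero] at h6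
  exact (mul_eq_zero.1 h6.symm).resolve_right (inv_ne_zero (h.ne j))

end Pool.Agent.T9h4.DQ
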